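import Mathlib

set_option autoImplicit false
set_option linter.unusedSectionVars false

/-!
Functions of integer vectors which depend only on the residues modulo `q`, and their means.
-/

namespace Pool.Agent.N368.TS

open Finset

section
variable {ι : Type} [Fintype ι] [DecidableEq ι]

/-- `F` depends only on the residues modulo `q` -/
def PerV {X : Type} (F : (ι → ℤ) → X) (q : ℕ) : Prop :=
  ∀ c d : ι → ℤ, (∀ i, (q : ℤ) ∣ c i - d i) → F c = F d

/-- the box of the residue vectors -/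
def bx (ι : Type) [Fintype ι] [DecidableEq ι] (q : ℕ) : Finset (ι → ℕ) :=
  Fintype.piFinset (fun _ : ι => range q)

theorem mem_bx {q : ℕ} {t : ι → ℕ} : t ∈ bx ι q ↔ ∀ i, t i < q := by
  unfold bx
  rw [Fintype.mem_piFinset]
  simp

theorem card_bx (q : ℕ) : (bx ι q).card = q ^ Fintype.card ι := by
  unfold bx
  rw [Fintype.card_piFinset, prod_const, card_range, card_univ]

/-- the mean over the residue vectors modulo `q` -/
noncomputable def av (q : ℕ) (F : (ι → ℤ) → ℝ) : ℝ :=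
  (∑ t ∈ bx ι q, F (fun i => (t i : ℤ))) / (q : ℝ) ^ Fintype.card ι

theorem PerV.of_dvd {X : Type} {F : (ι → ℤ) → X} {p q : ℕ} (h : PerV F p) (hpq : p ∣ q) : PerV F q :=
  fun c d hcd => h c d fun i => (Int.natCast_dvd_natCast.2 hpq).trans (hcd i)

theorem PerV.mod {X : Type} {F : (ι → ℤ) → X} {q : ℕ} (hF : PerV F q) (hq : 0 < q) (c : ι → ℤ) :
    F (fun i => ((c i % q).toNat : ℤ)) = F c := by
  apply hF
  intro i
  have h0 : 0 ≤ c i % (q : ℤ) := Int.emod_nonneg _ (by exact_mod_cast hq.ne')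
  rw [Int.toNat_of_nonneg h0]
  exact ⟨-(c i / q), by have := Int.emod_add_mul_ediv (c i) q; linarith⟩

theorem mod_mem_bx {q : ℕ} (hq : 0 < q) (c : ι → ℤ) : (fun i => (c i % q).toNat) ∈ bx ι q := by
  rw [mem_bx]
  intro i
  have h0 : 0 ≤ c i % (q : ℤ) := Int.emod_nonneg _ (by exact_mod_cast hq.ne')
  have h1 : c i % (q : ℤ) < q := Int.emod_lt_of_pos _ (by exact_mod_cast hq)
  omega

theorem PerV.nat_mod {X : Type} {F : (ι → ℤ) → X} {q : ℕ} (hF : PerV F q) (t : ι → ℕ) :
    F (fun i => ((t i % q : ℕ) : ℤ)) = F (fun i => (t i : ℤ)) := by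
  apply hF
  intro i
  refine ⟨-((t i / q : ℕ) : ℤ), ?_⟩
  have h := Nat.mod_add_div (t i) q
  have h' : ((t i % q : ℕ) : ℤ) + (q : ℤ) * ((t i / q : ℕ) : ℤ) = (t i : ℤ) := by exact_mod_cast h
  linarith

theorem sum_mul {p q : ℕ} (hp : 0 < p) (hq : 0 < q) (h : p.Coprime q) {F G : (ι → ℤ) → ℝ}
    (hF : PerV F p) (hG : PerV G q) :
    ∑ t ∈ bx ι (p * q), F (fun i => (t i : ℤ)) * G (fun i => (t i : ℤ)) =
      (∑ t ∈ bx ι p, F (fun i => (t i : ℤ))) * ∑ t ∈ bx ι q, G (fun i => (t i : ℤ)) := by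
  rw [sum_mul_sum, ← sum_product']
  refine sum_nbij' (fun t => (fun i => t i % p, fun i => t i % q))
    (fun z i => (Nat.chineseRemainder h (z.1 i) (z.2 i) : ℕ)) ?_ ?_ ?_ ?_ ?_
  · intro t _
    rw [mem_product, mem_bx, mem_bx]
    exact ⟨fun i => Nat.mod_lt _ hp, fun i => Nat.mod_lt _ hq⟩
  · intro z _
    rw [mem_bx]
    intro i
    exact Nat.chineseRemainder_lt_mul h _ _ hp.ne' hq.ne'
  · intro t ht
    rw [mem_bx] at ht
    funext i
    have h1 := Nat.chineseRemainder_modEq_unique h (a := t i % p) (b := t i % q) (z := t i)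
      (Nat.mod_modEq _ _).symm (Nat.mod_modEq _ _).symm
    exact (Nat.ModEq.eq_of_lt_of_lt h1 (ht i) (Nat.chineseRemainder_lt_mul h _ _ hp.ne' hq.ne')).symm
  · intro z hz
    rw [mem_product, mem_bx, mem_bx] at hz
    apply Prod.ext
    · funext i
      have h1 := (Nat.chineseRemainder h (z.1 i) (z.2 i)).2.1
      exact (Nat.mod_eq_of_modEq h1 (hz.1 i))
    · funext i
      have h1 := (Nat.chineseRemainder h (z.1 i) (z.2 i)).2.2
      exact (Nat.mod_eq_of_modEq h1 (hz.2 i))
  · intro t _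
    simp only
    rw [hF.nat_mod, hG.nat_mod]

theorem av_mul {p q : ℕ} (hp : 0 < p) (hq : 0 < q) (h : p.Coprime q) {F G : (ι → ℤ) → ℝ}
    (hF : PerV F p) (hG : PerV G q) :
    av (p * q) (fun c => F c * G c) = av p F * av q G := by
  unfold av
  rw [sum_mul hp hq h hF hG, div_mul_div_comm]
  push_cast
  rw [mul_pow]

theorem av_prod {κ : Type*} [DecidableEq κ] (q : κ → ℕ) (F : κ → (ι → ℤ) → ℝ) (I : Finset κ)
    (hq : ∀ i ∈ I, 0 < q i) (hcop : ∀ i ∈ I, ∀ j ∈ I, i ≠ j → Nat.Coprime (q i) (q j))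
    (hper : ∀ i ∈ I, PerV (F i) (q i)) :
    PerV (fun c => ∏ i ∈ I, F i c) (∏ i ∈ I, q i) ∧
      av (∏ i ∈ I, q i) (fun c => ∏ i ∈ I, F i c) = ∏ i ∈ I, av (q i) (F i) := by
  induction I using Finset.induction_on with
  | empty =>
    refine ⟨fun c d _ => rfl, ?_⟩
    unfold av
    simp [card_bx]
  | insert a I ha ih =>
    obtain ⟨h1, h2⟩ := ih (fun i hi => hq i (mem_insert_of_mem hi))
      (fun i hi j hj => hcop i (mem_insert_of_mem hi) j (mem_insert_of_mem hj))
      (fun i hi => hper i (mem_insert_of_mem hi))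
    have hqa := hq a (mem_insert_self _ _)
    have hpos : 0 < ∏ i ∈ I, q i := prod_pos fun i hi => hq i (mem_insert_of_mem hi)
    have hc : Nat.Coprime (q a) (∏ i ∈ I, q i) := by
      apply Nat.Coprime.prod_right
      intro i hi
      exact hcop a (mem_insert_self _ _) i (mem_insert_of_mem hi) (by
        rintro rfl
        exact ha hi)
    have hpa := hper a (mem_insert_self _ _)
    refine ⟨?_, ?_⟩
    · intro c d hcd
      simp only
      rw [prod_insert ha, prod_insert ha]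
      rw [prod_insert ha] at hcd
      have e1 : F a c = F a d := (hpa.of_dvd (Dvd.intro _ rfl)) c d hcd
      have e2 := (h1.of_dvd (Dvd.intro_left (q a) rfl)) c d hcd
      simp only at e2
      rw [e1, e2]
    · rw [prod_insert ha, prod_insert ha]
      have e : (fun c : ι → ℤ => ∏ i ∈ insert a I, F i c) =
          fun c => F a c * (fun c => ∏ i ∈ I, F i c) c := by
        funext c
        rw [prod_insert ha]
      rw [e, av_mul hqa hpos hc hpa h1, h2]

end

end Pool.Agent.N368.TS
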