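import Pool.Agent.N368.TS.Blk

set_option autoImplicit false
set_option linter.unusedSectionVars false

/-!
Products of bounded functions of the residues at consecutive primes, with weights.
-/

namespace Pool.Agent.N368.TS

open Finset Pool.Agent.TH869.EVF Pool.Agent.TH869.SQ

section
variable {ι : Type} [Fintype ι] [DecidableEq ι]

theorem av_smul (q : ℕ) (c : ℝ) (F : (ι → ℤ) → ℝ) : av q (fun t => c * F t) = c * av q F := by
  unfold av
  rw [← mul_sum]
  ring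

theorem av_abs {q : ℕ} (hq : 0 < q) {F : (ι → ℤ) → ℝ} {b : ℝ} (h : ∀ t, |F t| ≤ b) : |av q F| ≤ b := by
  have hq0 : (0 : ℝ) < q := by exact_mod_cast hq
  have hb : 0 ≤ b := (abs_nonneg _).trans (h 0)
  unfold av
  rw [abs_div, abs_of_nonneg (by positivity : (0 : ℝ) ≤ (q : ℝ) ^ Fintype.card ι), div_le_iff₀ (by positivity)]
  calc |∑ t ∈ bx ι q, F (fun i => (t i : ℤ))| ≤ ∑ t ∈ bx ι q, b :=
        (abs_sum_le_sum_abs _ _).trans (sum_le_sum fun t _ => h _)
    _ = b * (q : ℝ) ^ Fintype.card ι := by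
        rw [sum_const, card_bx, nsmul_eq_mul]
        push_cast
        ring

/-- products of bounded functions at consecutive primes, with weights -/
theorem bounded2 {S : ℕ → Finset ℕ} {v : ℕ → ι → ℤ} {ρ σ C₀ : ℝ} (hv : PEV S v ρ σ C₀) (s : ℕ) (hs : 1 ≤ s)
    (δ : ℝ) (hδ : 0 < δ) :
    ∃ κ C : ℝ, 0 < κ ∧ κ ≤ 1 ∧ 1 ≤ C ∧ ∀ (Θ : Type) (Q : Finset Θ) (b : ℝ), 1 ≤ b → ∀ G : Θ → ℕ → (ι → ℤ) → ℝ,
      (∀ θ ∈ Q, ∀ p, p.Prime → PerV (G θ p) p) → (∀ θ ∈ Q, ∀ p, p.Prime → ∀ t, |G θ p t| ≤ b) →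
      ∀ N : ℕ, 1 ≤ N → ∀ W : Finset (ℕ → ℝ), (W.card : ℝ) ≤ (N : ℝ) ^ κ → (∀ w ∈ W, ∀ k, |w k| ≤ 1) →
      ∃ E : Finset ℕ, (E.card : ℝ) ≤ C * (Q.card : ℝ) ^ s * (N : ℝ) ^ (1 - κ) ∧
        ∀ n ∈ S N, n ∉ E → ∀ w ∈ W, ∀ K : ℕ, (K : ℝ) ≤ (N : ℝ) ^ κ → ∀ q : Fin s → Θ, (∀ e, q e ∈ Q) →
          |∑ k ∈ range K, w k * (∏ e : Fin s, G (q e) (pr (k + e)) (v n) -
            ∏ e : Fin s, av (pr (k + e)) (G (q e) (pr (k + e))))| ≤ C * (2 * b ^ s) * lam δ N K := by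
  classical
  obtain ⟨κ, C, h1, h2, h3, H⟩ := good2 hv s (2 * s) ((4 * s ^ 2) ^ s) hs δ hδ
  refine ⟨κ / 2, C, by positivity, by linarith, h3, ?_⟩
  intro Θ Q b hb G hper hbd N hN W hW hw
  have hNr1 : (1 : ℝ) ≤ N := by exact_mod_cast hN
  have hN0 : (0 : ℝ) < N := by linarith
  have hbs : 1 ≤ b ^ s := one_le_pow₀ hb
  have hb2 : (0 : ℝ) < 2 * b ^ s := by linarith
  obtain ⟨QQ, hQQ⟩ : ∃ QQ : Finset (Fin s → Θ), QQ = Fintype.piFinset (fun _ : Fin s => Q) := ⟨_, rfl⟩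
  have hQm : ∀ q : Fin s → Θ, q ∈ QQ ↔ ∀ e, q e ∈ Q := by
    intro q
    rw [hQQ, Fintype.mem_piFinset]
  have hQc : (QQ.card : ℝ) = (Q.card : ℝ) ^ s := by
    rw [hQQ, Fintype.card_piFinset, prod_const, card_univ, Fintype.card_fin]
    push_cast
    rfl
  have hEx : ∀ (w : ℕ → ℝ) (q : Fin s → Θ), ∃ E : Finset ℕ, w ∈ W → q ∈ QQ →
      (E.card : ℝ) ≤ C * (N : ℝ) ^ (1 - κ) ∧
      ∀ n ∈ S N, n ∉ E → ∀ K : ℕ, (K : ℝ) ≤ (N : ℝ) ^ κ →
        |∑ k ∈ range K, w k * (∏ e : Fin s, G (q e) (pr (k + e)) (v n) -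
            ∏ e : Fin s, av (pr (k + e)) (G (q e) (pr (k + e))))| ≤ C * (2 * b ^ s) * lam δ N K := by
    intro w q
    by_cases hwq : w ∈ W ∧ q ∈ QQ
    · obtain ⟨hw1, hq1⟩ := hwq
      have hq2 := (hQm q).1 hq1
      have hav : ∀ k, av (qs s k) (fun t => ∏ e : Fin s, G (q e) (pr (k + e)) t) =
          ∏ e : Fin s, av (pr (k + e)) (G (q e) (pr (k + e))) := by
        intro k
        exact (av_prod (fun i : Fin s => pr (k + i)) (fun i t => G (q i) (pr (k + i)) t)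
          univ (fun i _ => (pr_prime _).pos) (by
            intro i _ j _ hij
            apply (Nat.coprime_primes (pr_prime _) (pr_prime _)).mpr
            intro he
            apply hij
            have := pr_inj he
            ext
            omega) (fun i _ => hper _ (hq2 i) _ (pr_prime _))).2
      have hPa : ∀ (k : ℕ) (t : ι → ℤ), |∏ e : Fin s, G (q e) (pr (k + e)) t| ≤ b ^ s := by
        intro k t
        rw [abs_prod]
        calc ∏ e : Fin s, |G (q e) (pr (k + e)) t| ≤ ∏ _e : Fin s, b :=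
              prod_le_prod (fun e _ => abs_nonneg _) fun e _ => hbd _ (hq2 e) _ (pr_prime _) t
          _ = _ := by rw [prod_const, card_univ, Fintype.card_fin]
      have hqpos : ∀ k, 0 < qs s k := fun k => (qs_le s hs k).1
      have hPb : ∀ k : ℕ, |∏ e : Fin s, av (pr (k + e)) (G (q e) (pr (k + e)))| ≤ b ^ s := by
        intro k
        rw [← hav k]
        exact av_abs (hqpos k) (hPa k)
      obtain ⟨E, hE1, hE2⟩ := H (qs s) (qs_le s hs) (qs_coprime s)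
        (fun k t => w k / (2 * b ^ s) * (∏ e : Fin s, G (q e) (pr (k + e)) t -
          ∏ e : Fin s, av (pr (k + e)) (G (q e) (pr (k + e))))) (by
          intro k c d hcd
          simp only
          congr 2
          refine prod_congr rfl fun e _ => ?_
          exact (hper _ (hq2 e) _ (pr_prime _)) c d fun l => (Int.natCast_dvd_natCast.2
            (dvd_prod_of_mem (fun i : Fin s => pr (k + i)) (mem_univ e))).trans (hcd l)) (by
          intro k t
          rw [abs_mul, abs_div, abs_of_pos hb2]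
          have e1 := hw w hw1 k
          have e2 : |∏ e : Fin s, G (q e) (pr (k + e)) t - ∏ e : Fin s, av (pr (k + e)) (G (q e) (pr (k + e)))| ≤
              2 * b ^ s := by
            refine (abs_sub _ _).trans ?_
            linarith [hPa k t, hPb k]
          calc |w k| / (2 * b ^ s) * |∏ e : Fin s, G (q e) (pr (k + e)) t -
                ∏ e : Fin s, av (pr (k + e)) (G (q e) (pr (k + e)))| ≤ 1 / (2 * b ^ s) * (2 * b ^ s) := by gcongr
            _ = 1 := by field_simp) (by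
          intro k
          rw [av_smul, ← hav k, av_sub_av (hqpos k), mul_zero]) N hN
      refine ⟨E, fun _ _ => ⟨hE1, fun n hn hnE K hK => ?_⟩⟩
      have h5 := hE2 n hn hnE K hK
      have e3 : ∑ k ∈ range K, w k * (∏ e : Fin s, G (q e) (pr (k + e)) (v n) -
          ∏ e : Fin s, av (pr (k + e)) (G (q e) (pr (k + e)))) =
          (2 * b ^ s) * ∑ k ∈ range K, w k / (2 * b ^ s) * (∏ e : Fin s, G (q e) (pr (k + e)) (v n) -
          ∏ e : Fin s, av (pr (k + e)) (G (q e) (pr (k + e)))) := by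
        rw [mul_sum]
        refine sum_congr rfl fun k _ => ?_
        field_simp
      rw [e3, abs_mul, abs_of_pos hb2]
      calc (2 * b ^ s) * |∑ k ∈ range K, w k / (2 * b ^ s) * (∏ e : Fin s, G (q e) (pr (k + e)) (v n) -
          ∏ e : Fin s, av (pr (k + e)) (G (q e) (pr (k + e))))| ≤ (2 * b ^ s) * (C * lam δ N K) :=
            mul_le_mul_of_nonneg_left h5 hb2.le
        _ = _ := by ring
    · exact ⟨∅, fun h4 h5 => absurd ⟨h4, h5⟩ hwq⟩
  choose Ex hEx2 using hEx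
  refine ⟨W.biUnion (fun w => QQ.biUnion (fun q => Ex w q)), ?_, ?_⟩
  · have h4 : ((W.biUnion (fun w => QQ.biUnion (fun q => Ex w q))).card : ℝ) ≤
        ∑ w ∈ W, ∑ q ∈ QQ, ((Ex w q).card : ℝ) := by
      have h5 : (W.biUnion (fun w => QQ.biUnion (fun q => Ex w q))).card ≤ ∑ w ∈ W, ∑ q ∈ QQ, (Ex w q).card :=
        card_biUnion_le.trans (sum_le_sum fun z _ => card_biUnion_le)
      exact_mod_cast h5
    have hNp : 0 ≤ (N : ℝ) ^ (1 - κ) := Real.rpow_nonneg hN0.le _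
    calc _ ≤ ∑ w ∈ W, ∑ q ∈ QQ, ((Ex w q).card : ℝ) := h4
      _ ≤ ∑ w ∈ W, ∑ q ∈ QQ, C * (N : ℝ) ^ (1 - κ) :=
          sum_le_sum fun w hw1 => sum_le_sum fun q hq1 => (hEx2 w q hw1 hq1).1
      _ = W.card * ((Q.card : ℝ) ^ s * (C * (N : ℝ) ^ (1 - κ))) := by
          rw [sum_const, sum_const, nsmul_eq_mul, nsmul_eq_mul, hQc]
      _ ≤ (N : ℝ) ^ (κ / 2) * ((Q.card : ℝ) ^ s * (C * (N : ℝ) ^ (1 - κ))) := by gcongr
      _ = C * (Q.card : ℝ) ^ s * ((N : ℝ) ^ (κ / 2) * (N : ℝ) ^ (1 - κ)) := by ring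
      _ = _ := by
          rw [← Real.rpow_add hN0]
          congr 2
          ring
  · intro n hn hnE w hw1 K hK q hq
    have hq1 := (hQm q).2 hq
    refine (hEx2 w q hw1 hq1).2 n hn (fun h4 => hnE ?_) K
      (hK.trans (Real.rpow_le_rpow_of_exponent_le hNr1 (by linarith)))
    rw [mem_biUnion]
    refine ⟨w, hw1, ?_⟩
    rw [mem_biUnion]
    exact ⟨q, hq1, h4⟩

end

end Pool.Agent.N368.TS
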