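import Pool.Agent.N368.TS.Mo

set_option autoImplicit false
set_option linter.unusedSectionVars false

/-!
Families of integer vectors with a power-saving uniform distribution in residue classes: square root cancellation for
almost all members (adapted from `Pool.Agent.N193.PS.Pe2` and `Pool.Agent.TH869.SQ`).
-/

namespace Pool.Agent.N368.TS

open Finset Pool.Agent.TH869.EVF Pool.Agent.TH869.SQ

section
variable {ι : Type} [Fintype ι] [DecidableEq ι]

theorem av_mem {q : ℕ} {f : (ι → ℤ) → ℝ} (h0 : ∀ t, 0 ≤ f t) (h1 : ∀ t, f t ≤ 1) :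
    0 ≤ av q f ∧ av q f ≤ 1 := by
  unfold av
  refine ⟨div_nonneg (sum_nonneg fun t _ => h0 _) (by positivity), ?_⟩
  apply div_le_one_of_le₀ _ (by positivity)
  calc ∑ t ∈ bx ι q, f (fun i => (t i : ℤ)) ≤ ∑ t ∈ bx ι q, (1 : ℝ) := sum_le_sum fun t _ => h1 _
    _ = (q : ℝ) ^ Fintype.card ι := by
      rw [sum_const, card_bx, nsmul_eq_mul, mul_one]
      push_cast
      rfl

theorem av_sub_av {q : ℕ} (hq : 0 < q) (f : (ι → ℤ) → ℝ) :
    av q (fun c => f c - av q f) = 0 := by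
  have hqr : (q : ℝ) ^ Fintype.card ι ≠ 0 := by
    have : (0 : ℝ) < q := by exact_mod_cast hq
    positivity
  have e : ∑ t ∈ bx ι q, (f (fun i => (t i : ℤ)) - av q f) = 0 := by
    rw [sum_sub_distrib, sum_const, card_bx, nsmul_eq_mul, av]
    push_cast
    field_simp
    ring
  show (∑ t ∈ bx ι q, (f (fun i => (t i : ℤ)) - av q f)) / _ = 0
  rw [e, zero_div]

/-- one block -/
theorem one_block2 {S : ℕ → Finset ℕ} {v : ℕ → ι → ℤ} {ρ σ C : ℝ} (hv : PEV S v ρ σ C) (s B D : ℕ) (δ : ℝ) (hδ : 0 < δ) :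
    ∃ (Z0 : ℕ) (κ : ℝ), 1 ≤ Z0 ∧ 0 < κ ∧ κ ≤ 1 ∧ ∀ (q : ℕ → ℕ),
      (∀ k, 0 < q k ∧ q k ≤ D * (k + 1) ^ B) →
      (∀ j k, j + s ≤ k → Nat.Coprime (q j) (q k)) → ∀ φ : ℕ → (ι → ℤ) → ℝ, (∀ k, PerV (φ k) (q k)) →
      (∀ k n, |φ k n| ≤ 1) → (∀ k, av (q k) (φ k) = 0) →
      ∀ N z j : ℕ, 1 ≤ N → Z0 ≤ z → (z : ℝ) ≤ (N : ℝ) ^ κ →
      (((S N).filter (fun n => lam δ N z < |∑ k ∈ Wz s z j, φ k (v n)|)).card : ℝ) ≤
        (2 + C) * (N : ℝ) ^ (1 - 2 * κ) := by
  have hρ0 := hv.ρ0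
  have hρ1 := hv.ρ1
  have hσ0 := hv.σ0
  have hσ1 := hv.σ1
  have hC1 := hv.C1
  obtain ⟨ρ', hρ'⟩ : ∃ ρ', ρ' = min ρ σ := ⟨_, rfl⟩
  have hρ'0 : 0 < ρ' := by rw [hρ']; exact lt_min hρ0 hσ0
  have hρ'ρ : ρ' ≤ ρ := by rw [hρ']; exact min_le_left _ _
  have hρ'σ : ρ' ≤ σ := by rw [hρ']; exact min_le_right _ _
  set b0 : ℝ := 4 * (B + 2) / ρ' with hb0
  have hB0 : (0 : ℝ) ≤ B := Nat.cast_nonneg B
  have hb08 : 8 ≤ b0 := by rw [hb0, le_div_iff₀ hρ'0]; nlinarith
  set κ : ℝ := min (1 / (2 * b0)) (min (δ / (2 * b0)) (min (σ / 4) (1 / 4))) with hκ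
  have hκ0 : 0 < κ := by
    rw [hκ]
    refine lt_min (by positivity) (lt_min (by positivity) (lt_min (by positivity) (by norm_num)))
  have hκ1 : κ ≤ 1 / (2 * b0) := min_le_left _ _
  have hκ2 : κ ≤ δ / (2 * b0) := (min_le_right _ _).trans (min_le_left _ _)
  have hκσ : κ ≤ σ / 4 := (min_le_right _ _).trans ((min_le_right _ _).trans (min_le_left _ _))
  have hκ3 : κ ≤ 1 / 4 := (min_le_right _ _).trans ((min_le_right _ _).trans (min_le_right _ _))
  refine ⟨max D 3, κ, by omega, hκ0, by linarith, ?_⟩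
  intro q hq hcop φ hper hle hsum N z j hN hz hzN
  have hNr1 : (1 : ℝ) ≤ N := by exact_mod_cast hN
  have hN0 : (0 : ℝ) < N := by linarith
  have hz3 : 3 ≤ z := le_trans (le_max_right _ _) hz
  have hzD : D ≤ z := le_trans (le_max_left _ _) hz
  have hz3r : (3 : ℝ) ≤ z := by exact_mod_cast hz3
  have hz0 : (0 : ℝ) < z := by linarith
  set L : ℝ := Real.log N with hL
  set lz : ℝ := Real.log z with hlz
  have hL0 : 0 ≤ L := Real.log_nonneg hNr1
  have hlz1 : 1 ≤ lz := by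
    rw [hlz, Real.le_log_iff_exp_le hz0]
    have := Real.exp_one_lt_d9
    linarith
  have hlzL : 2 * b0 * lz ≤ L := by
    have h1 : lz ≤ Real.log ((N : ℝ) ^ κ) := Real.log_le_log hz0 hzN
    rw [Real.log_rpow hN0] at h1
    have h2 : κ * L ≤ 1 / (2 * b0) * L := mul_le_mul_of_nonneg_right hκ1 hL0
    have h3 : lz ≤ 1 / (2 * b0) * L := h1.trans h2
    calc 2 * b0 * lz ≤ 2 * b0 * (1 / (2 * b0) * L) := by gcongr
      _ = L := by field_simp
  set m : ℕ := ⌊L / (b0 * lz)⌋₊ with hm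
  have hm1 : (m : ℝ) ≤ L / (b0 * lz) := Nat.floor_le (by positivity)
  have hm2 : L / (2 * b0 * lz) ≤ m := by
    have h1 : L / (b0 * lz) < m + 1 := Nat.lt_floor_add_one _
    have h2 : 1 ≤ L / (2 * b0 * lz) := by rw [le_div_iff₀ (by positivity)]; linarith
    have h3 : L / (b0 * lz) = L / (2 * b0 * lz) + L / (2 * b0 * lz) := by field_simp; ring
    linarith
  have hN2 : 0 ≤ (N : ℝ) ^ (1 - 2 * κ) := Real.rpow_nonneg hN0.le _
  set b : ℝ := lam δ N z with hb
  have hzδ : 1 ≤ (z : ℝ) ^ δ := Real.one_le_rpow (by linarith) hδ.le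
  have hzh : (z : ℝ) ^ (1 / 2 + δ) = √z * (z : ℝ) ^ δ := by
    rw [Real.rpow_add hz0, ← Real.sqrt_eq_rpow]
  have hs1 : 1 ≤ √(1 + L) := Real.one_le_sqrt.mpr (by linarith)
  have hsz : 0 < √(z : ℝ) := Real.sqrt_pos.mpr hz0
  have hsz1 : 1 ≤ √(z : ℝ) := Real.one_le_sqrt.mpr (by linarith)
  have hb1 : √(z : ℝ) * √(1 + L) ≤ b := by
    rw [hb, lam, hzh]
    calc √(z : ℝ) * √(1 + L) = √z * 1 * √(1 + L) := by ring
      _ ≤ √z * (z : ℝ) ^ δ * √(1 + L) := by gcongr
  have hbpos : 0 < b := lt_of_lt_of_le (by positivity) hb1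
  have hbone : 1 ≤ b := le_trans (one_le_mul_of_one_le_of_one_le hsz1 hs1) hb1
  have hmL : (m : ℝ) ≤ L := hm1.trans (div_le_self hL0 (by nlinarith))
  by_cases hmP : m ≤ (Wz s z j).card
  · have hmem : ∀ k ∈ Wz s z j, k < z ∧ k % s = j := by
      intro k hk
      rw [Wz, mem_filter, mem_Ico] at hk
      exact ⟨hk.1.2, hk.2⟩
    have hYz : ((D * z ^ B + 1 : ℕ) : ℝ) ≤ (z : ℝ) ^ ((B : ℝ) + 2) := by
      push_cast
      have hDz : (D : ℝ) ≤ z := by exact_mod_cast hzD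
      have h2 : (z : ℝ) ^ ((B : ℝ) + 2) = z * (z : ℝ) ^ B * z := by
        rw [show (B : ℝ) + 2 = 1 + B + 1 by ring, Real.rpow_add hz0, Real.rpow_add hz0, Real.rpow_one, Real.rpow_natCast]
      rw [h2]
      have h3 : (1 : ℝ) ≤ (z : ℝ) ^ B := one_le_pow₀ (by linarith)
      have h5 : (D : ℝ) * (z : ℝ) ^ B ≤ z * (z : ℝ) ^ B := by gcongr
      have h6 : (1 : ℝ) ≤ z * (z : ℝ) ^ B := one_le_mul_of_one_le_of_one_le (by linarith) h3
      have h7 : (z : ℝ) * (z : ℝ) ^ B * 2 ≤ z * (z : ℝ) ^ B * z := mul_le_mul_of_nonneg_left (by linarith) (by linarith)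
      linarith
    have hYN : (((D * z ^ B + 1 : ℕ) : ℝ)) ^ (2 * m) ≤ (N : ℝ) ^ (ρ' / 2) := by
      calc (((D * z ^ B + 1 : ℕ) : ℝ)) ^ (2 * m) ≤ ((z : ℝ) ^ ((B : ℝ) + 2)) ^ (2 * m) :=
            pow_le_pow_left₀ (by positivity) hYz _
        _ = Real.exp (2 * ((B : ℝ) + 2) * (lz * m)) := by
            rw [Real.rpow_def_of_pos hz0, ← Real.exp_nat_mul]; congr 1; push_cast; ring
        _ ≤ Real.exp (ρ' / 2 * L) := by
            apply Real.exp_le_exp.mpr
            have h1 : lz * m ≤ L / b0 := by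
              calc lz * m ≤ lz * (L / (b0 * lz)) := by gcongr
                _ = L / b0 := by field_simp
            have h2 : 2 * ((B : ℝ) + 2) * (lz * m) ≤ 2 * ((B : ℝ) + 2) * (L / b0) := by gcongr
            have h3 : 2 * ((B : ℝ) + 2) * (L / b0) = ρ' / 2 * L := by
              rw [hb0]; field_simp; ring
            linarith
        _ = _ := by rw [Real.rpow_def_of_pos hN0, hL]; ring_nf
    have h := bad_card2 hv (Wz s z j) q φ (D * z ^ B + 1) (by
        intro k hk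
        refine ⟨(hq k).1, ?_⟩
        have h1 := (hq k).2
        have h2 : (k + 1) ^ B ≤ z ^ B := Nat.pow_le_pow_left (hmem k hk).1 B
        have h3 : D * (k + 1) ^ B ≤ D * z ^ B := Nat.mul_le_mul_left D h2
        omega) (by omega) (by
        intro i hi k hk hik
        obtain ⟨_, hi2⟩ := hmem i hi
        obtain ⟨_, hk2⟩ := hmem k hk
        have hmod : i ≡ k [MOD s] := by rw [Nat.ModEq, hi2, hk2]
        rcases lt_or_gt_of_ne hik with hlt | hlt
        · apply hcop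
          obtain ⟨c, hc⟩ := (Nat.modEq_iff_dvd' hlt.le).mp hmod
          have hc0 : c ≠ 0 := by rintro rfl; omega
          have : s ≤ s * c := Nat.le_mul_of_pos_right s (Nat.pos_of_ne_zero hc0)
          omega
        · apply Nat.Coprime.symm
          apply hcop
          obtain ⟨c, hc⟩ := (Nat.modEq_iff_dvd' hlt.le).mp hmod.symm
          have hc0 : c ≠ 0 := by rintro rfl; omega
          have : s ≤ s * c := Nat.le_mul_of_pos_right s (Nat.pos_of_ne_zero hc0)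
          omega) (fun k _ => hper k) hle (fun k _ => hsum k) N m hN hmP
      (hYN.trans (Real.rpow_le_rpow_of_exponent_le hNr1 (by linarith))) b hbpos
    refine h.trans ?_
    have hPz : ((Wz s z j).card : ℝ) ≤ z := by exact_mod_cast card_Wz s z j
    have hNpow : ∀ a : ℝ, (N : ℝ) ^ a = Real.exp (a * L) := by
      intro a
      rw [Real.rpow_def_of_pos hN0, hL]; ring_nf
    have hzpow : ∀ a : ℝ, (z : ℝ) ^ a = Real.exp (a * lz) := by
      intro a
      rw [Real.rpow_def_of_pos hz0, hlz]; ring_nf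
    -- first term
    have hX : Real.exp 1 * m * (Wz s z j).card / b ^ 2 ≤ (z : ℝ) ^ (-(2 * δ)) := by
      have hb2 : b ^ 2 = (z : ℝ) * (z : ℝ) ^ (2 * δ) * (1 + L) := by
        rw [hb, lam, hzh, mul_pow, mul_pow, Real.sq_sqrt hz0.le, Real.sq_sqrt (by linarith),
          ← Real.rpow_natCast ((z : ℝ) ^ δ) 2, ← Real.rpow_mul hz0.le]
        congr 3
        push_cast; ring
      have hem : Real.exp 1 * m ≤ 1 + L := by
        have h1 : (m : ℝ) ≤ L / 8 := by
          refine hm1.trans ?_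
          apply div_le_div_of_nonneg_left hL0 (by norm_num)
          nlinarith
        have := Real.exp_one_lt_d9
        have h0 : (0 : ℝ) ≤ m := Nat.cast_nonneg m
        nlinarith
      rw [hb2, Real.rpow_neg hz0.le, div_le_iff₀ (by positivity)]
      have hzp : 0 < (z : ℝ) ^ (2 * δ) := Real.rpow_pos_of_pos hz0 _
      calc Real.exp 1 * m * (Wz s z j).card ≤ (1 + L) * z := by gcongr
        _ = _ := by field_simp
    have hXm : (Real.exp 1 * m * (Wz s z j).card / b ^ 2) ^ m ≤ (N : ℝ) ^ (-(2 * κ)) := by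
      calc _ ≤ ((z : ℝ) ^ (-(2 * δ))) ^ m := pow_le_pow_left₀ (by positivity) hX m
        _ = Real.exp (-(2 * δ) * (lz * m)) := by
            rw [hzpow, ← Real.exp_nat_mul]; congr 1; ring
        _ ≤ Real.exp (-(2 * κ) * L) := by
            apply Real.exp_le_exp.mpr
            have h1 : L / (2 * b0) ≤ lz * m := by
              calc L / (2 * b0) = lz * (L / (2 * b0 * lz)) := by field_simp
                _ ≤ lz * m := by gcongr
            have h2 : κ * L ≤ δ * (lz * m) := by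
              calc κ * L ≤ δ / (2 * b0) * L := mul_le_mul_of_nonneg_right hκ2 hL0
                _ = δ * (L / (2 * b0)) := by ring
                _ ≤ δ * (lz * m) := mul_le_mul_of_nonneg_left h1 hδ.le
            linarith
        _ = _ := (hNpow _).symm
    -- second term
    have hY : ((Wz s z j).card : ℝ) * ((D * z ^ B + 1 : ℕ) : ℝ) / b ≤ (z : ℝ) ^ ((B : ℝ) + 2) := by
      rw [div_le_iff₀ hbpos]
      have h1 : ((D * z ^ B + 1 : ℕ) : ℝ) ≤ (z : ℝ) ^ ((B : ℝ) + 1) * √z := by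
        push_cast
        have hDz : (D : ℝ) ≤ z := by exact_mod_cast hzD
        have h2 : (z : ℝ) ^ ((B : ℝ) + 1) = z * (z : ℝ) ^ B := by
          rw [Real.rpow_add hz0, Real.rpow_one, Real.rpow_natCast]; ring
        rw [h2]
        have h3 : (1 : ℝ) ≤ (z : ℝ) ^ B := one_le_pow₀ (by linarith)
        have h4 : (4 / 3 : ℝ) ≤ √z := by
          apply Real.le_sqrt_of_sq_le
          norm_num
          linarith
        have h5 : (D : ℝ) * (z : ℝ) ^ B ≤ z * (z : ℝ) ^ B := by gcongr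
        have h6 : (1 : ℝ) ≤ z * (z : ℝ) ^ B * (1 / 3) := by nlinarith
        calc (D : ℝ) * (z : ℝ) ^ B + 1 ≤ z * (z : ℝ) ^ B * (4 / 3) := by linarith
          _ ≤ z * (z : ℝ) ^ B * √z := by gcongr
      have h7 : √(z : ℝ) ≤ b := by
        refine le_trans ?_ hb1
        exact le_mul_of_one_le_right hsz.le hs1
      calc ((Wz s z j).card : ℝ) * ((D * z ^ B + 1 : ℕ) : ℝ)
          ≤ z * ((z : ℝ) ^ ((B : ℝ) + 1) * b) := by
            refine mul_le_mul hPz (h1.trans ?_) (by positivity) hz0.le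
            exact mul_le_mul_of_nonneg_left h7 (Real.rpow_nonneg hz0.le _)
        _ = (z : ℝ) ^ ((B : ℝ) + 2) * b := by
            rw [show (B : ℝ) + 2 = 1 + ((B : ℝ) + 1) by ring, Real.rpow_add hz0 1, Real.rpow_one]
            ring
    have hYm : (((Wz s z j).card : ℝ) * ((D * z ^ B + 1 : ℕ) : ℝ) / b) ^ (2 * m) * (C * (N : ℝ) ^ (1 - σ)) ≤
        C * (N : ℝ) ^ (1 - 2 * κ) := by
      have h5 : (((Wz s z j).card : ℝ) * ((D * z ^ B + 1 : ℕ) : ℝ) / b) ^ (2 * m) ≤ (N : ℝ) ^ (ρ' / 2) := by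
        calc _ ≤ ((z : ℝ) ^ ((B : ℝ) + 2)) ^ (2 * m) := pow_le_pow_left₀ (by positivity) hY _
          _ = Real.exp (2 * ((B : ℝ) + 2) * (lz * m)) := by
              rw [hzpow, ← Real.exp_nat_mul]; congr 1; push_cast; ring
          _ ≤ Real.exp (ρ' / 2 * L) := by
              apply Real.exp_le_exp.mpr
              have h1 : lz * m ≤ L / b0 := by
                calc lz * m ≤ lz * (L / (b0 * lz)) := by gcongr
                  _ = L / b0 := by field_simp
              have h2 : 2 * ((B : ℝ) + 2) * (lz * m) ≤ 2 * ((B : ℝ) + 2) * (L / b0) := by gcongr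
              have h3 : 2 * ((B : ℝ) + 2) * (L / b0) = ρ' / 2 * L := by
                rw [hb0]; field_simp; ring
              linarith
          _ = _ := (hNpow _).symm
      calc _ ≤ (N : ℝ) ^ (ρ' / 2) * (C * (N : ℝ) ^ (1 - σ)) := mul_le_mul_of_nonneg_right h5 (by positivity)
        _ = C * (N : ℝ) ^ (ρ' / 2 + (1 - σ)) := by rw [Real.rpow_add hN0]; ring
        _ ≤ _ := by
            apply mul_le_mul_of_nonneg_left _ (by linarith)
            apply Real.rpow_le_rpow_of_exponent_le hNr1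
            linarith
    have hN1 : (N : ℝ) + 1 ≤ 2 * N := by linarith
    have hNN : (N : ℝ) * (N : ℝ) ^ (-(2 * κ)) = (N : ℝ) ^ (1 - 2 * κ) := by
      rw [← Real.rpow_one_add' hN0.le (by linarith)]
      congr 1
    calc ((N : ℝ) + 1) * (Real.exp 1 * m * (Wz s z j).card / b ^ 2) ^ m +
          (((Wz s z j).card : ℝ) * ((D * z ^ B + 1 : ℕ) : ℝ) / b) ^ (2 * m) * (C * (N : ℝ) ^ (1 - σ))
        ≤ (2 * N) * (N : ℝ) ^ (-(2 * κ)) + C * (N : ℝ) ^ (1 - 2 * κ) :=
          add_le_add (mul_le_mul hN1 hXm (by positivity) (by positivity)) hYm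
      _ = (2 + C) * (N : ℝ) ^ (1 - 2 * κ) := by rw [mul_assoc, hNN]; ring
  · -- few indices: the trivial bound
    push Not at hmP
    have hempty : (S N).filter (fun n => b < |∑ k ∈ Wz s z j, φ k (v n)|) = ∅ := by
      rw [filter_eq_empty_iff]
      intro n _ hlt
      have h1 : |∑ k ∈ Wz s z j, φ k (v n)| ≤ (Wz s z j).card := by
        refine (abs_sum_le_sum_abs _ _).trans ?_
        calc ∑ k ∈ Wz s z j, |φ k (v n)| ≤ ∑ k ∈ Wz s z j, (1 : ℝ) := sum_le_sum fun k _ => hle k (v n)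
          _ = (Wz s z j).card := by simp
      set w : ℝ := ((Wz s z j).card : ℝ) with hw
      have hw0 : 0 ≤ w := Nat.cast_nonneg _
      have hwz : w ≤ z := by rw [hw]; exact_mod_cast card_Wz s z j
      have hwm : w ≤ m := by rw [hw]; exact_mod_cast hmP.le
      have h2 : w ≤ √(z : ℝ) * √(1 + L) := by
        rw [← Real.sqrt_mul hz0.le]
        apply Real.le_sqrt_of_sq_le
        rw [sq]
        exact mul_le_mul hwz (by linarith) hw0 hz0.le
      linarith
    rw [hempty, card_empty, Nat.cast_zero]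
    positivity

/-- **square root cancellation for almost all arguments** -/
theorem good2 {S : ℕ → Finset ℕ} {v : ℕ → ι → ℤ} {ρ σ C₀ : ℝ} (hv : PEV S v ρ σ C₀) (s B D : ℕ) (hs : 1 ≤ s) (δ : ℝ) (hδ : 0 < δ) :
    ∃ κ C : ℝ, 0 < κ ∧ κ ≤ 1 ∧ 1 ≤ C ∧ ∀ (q : ℕ → ℕ),
      (∀ k, 0 < q k ∧ q k ≤ D * (k + 1) ^ B) →
      (∀ j k, j + s ≤ k → Nat.Coprime (q j) (q k)) → ∀ φ : ℕ → (ι → ℤ) → ℝ, (∀ k, PerV (φ k) (q k)) →
      (∀ k n, |φ k n| ≤ 1) → (∀ k, av (q k) (φ k) = 0) →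
      ∀ N : ℕ, 1 ≤ N → ∃ E : Finset ℕ, (E.card : ℝ) ≤ C * (N : ℝ) ^ (1 - κ) ∧
        ∀ n ∈ S N, n ∉ E → ∀ K : ℕ, (K : ℝ) ≤ (N : ℝ) ^ κ →
          |∑ k ∈ range K, φ k (v n)| ≤ C * lam δ N K := by
  obtain ⟨Z0, κ, hZ0, hκ0, hκ1, H⟩ := one_block2 hv s B D δ hδ
  have hsr : (1 : ℝ) ≤ s := by exact_mod_cast hs
  have hZr : (1 : ℝ) ≤ Z0 := by exact_mod_cast hZ0
  have hC₀ := hv.C1
  refine ⟨κ, 4 * s * Z0 * C₀, hκ0, hκ1, by
    have h1 : (1 : ℝ) ≤ 4 * s * Z0 := by nlinarith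
    nlinarith, ?_⟩
  intro q hq hcop φ hper hle hsum N hN
  have hNr1 : (1 : ℝ) ≤ N := by exact_mod_cast hN
  have hN0 : (0 : ℝ) < N := by linarith
  set V := (Icc 1 ⌊(N : ℝ) ^ κ⌋₊).filter (fun z : ℕ => Z0 ≤ z) with hV
  set Bd : ℕ → ℕ → Finset ℕ := fun z j => (S N).filter
    (fun n => lam δ N z < |∑ k ∈ Wz s z j, φ k (v n)|) with hBd
  refine ⟨V.biUnion (fun z => (range s).biUnion (Bd z)), ?_, ?_⟩
  · have h1 : ∀ z ∈ V, ∀ j, ((Bd z j).card : ℝ) ≤ (2 + C₀) * (N : ℝ) ^ (1 - 2 * κ) := by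
      intro z hz j
      rw [hV, mem_filter, mem_Icc] at hz
      have hzκ : (z : ℝ) ≤ (N : ℝ) ^ κ :=
        (Nat.cast_le.mpr hz.1.2).trans (Nat.floor_le (Real.rpow_nonneg hN0.le _))
      exact H q hq hcop φ hper hle hsum N z j hN hz.2 hzκ
    have h2 : ((V.biUnion (fun z => (range s).biUnion (Bd z))).card : ℝ) ≤
        ∑ z ∈ V, ∑ j ∈ range s, ((Bd z j).card : ℝ) := by
      have h3 : (V.biUnion (fun z => (range s).biUnion (Bd z))).card ≤
          ∑ z ∈ V, ∑ j ∈ range s, (Bd z j).card :=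
        card_biUnion_le.trans (sum_le_sum fun z _ => card_biUnion_le)
      exact_mod_cast h3
    have h3 : (V.card : ℝ) ≤ (N : ℝ) ^ κ := by
      have h4 : V.card ≤ ⌊(N : ℝ) ^ κ⌋₊ := by
        calc V.card ≤ (Icc 1 ⌊(N : ℝ) ^ κ⌋₊).card := card_filter_le _ _
          _ = _ := by rw [Nat.card_Icc, Nat.add_sub_cancel]
      exact (Nat.cast_le.mpr h4).trans (Nat.floor_le (Real.rpow_nonneg hN0.le _))
    have hNp : 0 ≤ (N : ℝ) ^ (1 - 2 * κ) := Real.rpow_nonneg hN0.le _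
    calc _ ≤ ∑ z ∈ V, ∑ j ∈ range s, ((Bd z j).card : ℝ) := h2
      _ ≤ ∑ z ∈ V, ∑ j ∈ range s, (2 + C₀) * (N : ℝ) ^ (1 - 2 * κ) :=
          sum_le_sum fun z hz => sum_le_sum fun j _ => h1 z hz j
      _ = V.card * (s * ((2 + C₀) * (N : ℝ) ^ (1 - 2 * κ))) := by
          rw [sum_const, sum_const, card_range, nsmul_eq_mul, nsmul_eq_mul]
      _ ≤ (N : ℝ) ^ κ * (s * ((2 + C₀) * (N : ℝ) ^ (1 - 2 * κ))) := by gcongr
      _ = (2 + C₀) * s * ((N : ℝ) ^ κ * (N : ℝ) ^ (1 - 2 * κ)) := by ring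
      _ = (2 + C₀) * s * (N : ℝ) ^ (1 - κ) := by
          rw [← Real.rpow_add hN0]
          congr 2
          ring
      _ ≤ 4 * s * Z0 * C₀ * (N : ℝ) ^ (1 - κ) := by
          have := Real.rpow_nonneg hN0.le (1 - κ)
          apply mul_le_mul_of_nonneg_right _ this
          have h6 : (2 + C₀) * (s : ℝ) ≤ (4 * C₀) * s := mul_le_mul_of_nonneg_right (by linarith) (by linarith)
          have h7 : (4 * C₀) * (s : ℝ) * 1 ≤ (4 * C₀) * s * Z0 := mul_le_mul_of_nonneg_left hZr (by positivity)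
          linarith
  · intro n hn hnE K hK
    have key : ∀ z : ℕ, (z : ℝ) ≤ (N : ℝ) ^ κ →
        |∑ k ∈ Ico (z / 2) z, φ k (v n)| ≤ (s * Z0) * lam δ N z := by
      intro z hz
      have hlam := lam_nonneg δ N z
      by_cases hzZ : Z0 ≤ z
      · have hzV : z ∈ V := by
          rw [hV, mem_filter, mem_Icc]
          exact ⟨⟨by omega, Nat.le_floor hz⟩, hzZ⟩
        rw [sum_Wz s z hs]
        refine (abs_sum_le_sum_abs _ _).trans ?_
        calc ∑ j ∈ range s, |∑ k ∈ Wz s z j, φ k (v n)| ≤ ∑ j ∈ range s, lam δ N z := by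
              refine sum_le_sum fun j hj => ?_
              by_contra hlt
              push Not at hlt
              apply hnE
              rw [mem_biUnion]
              refine ⟨z, hzV, ?_⟩
              rw [mem_biUnion]
              refine ⟨j, hj, ?_⟩
              rw [hBd, mem_filter]
              exact ⟨hn, hlt⟩
          _ = s * lam δ N z := by rw [sum_const, card_range, nsmul_eq_mul]
          _ ≤ (s * Z0) * lam δ N z := by
              have : (s : ℝ) ≤ s * Z0 := by nlinarith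
              gcongr
      · push Not at hzZ
        rcases Nat.eq_zero_or_pos z with rfl | hz0
        · simp only [Nat.zero_div, Ico_self, sum_empty, abs_zero]
          positivity
        · have hz1 : (1 : ℝ) ≤ z := by exact_mod_cast hz0
          have hl1 : 1 ≤ lam δ N z := by
            unfold lam
            have h1 : 1 ≤ (z : ℝ) ^ (1 / 2 + δ) := Real.one_le_rpow hz1 (by linarith)
            have h2 : 1 ≤ √(1 + Real.log N) :=
              Real.one_le_sqrt.mpr (by have := Real.log_nonneg hNr1; linarith)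
            exact one_le_mul_of_one_le_of_one_le h1 h2
          have h1 : |∑ k ∈ Ico (z / 2) z, φ k (v n)| ≤ z := by
            refine (abs_sum_le_sum_abs _ _).trans ?_
            calc ∑ k ∈ Ico (z / 2) z, |φ k (v n)| ≤ ∑ k ∈ Ico (z / 2) z, (1 : ℝ) :=
                  sum_le_sum fun k _ => hle k (v n)
              _ = ((z - z / 2 : ℕ) : ℝ) := by simp
              _ ≤ z := by exact_mod_cast Nat.sub_le _ _
          have h2 : (z : ℝ) ≤ Z0 := by exact_mod_cast hzZ.le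
          have h3 : (Z0 : ℝ) ≤ s * Z0 := by nlinarith
          calc |∑ k ∈ Ico (z / 2) z, φ k (v n)| ≤ (s * Z0) * 1 := by linarith
            _ ≤ _ := by gcongr
    have h := add_blocks (fun k => φ k (v n)) δ hδ.le N (s * Z0) ((N : ℝ) ^ κ) (by positivity) key K hK
    calc _ ≤ 4 * ((s : ℝ) * Z0) * lam δ N K := h
      _ ≤ 4 * ((s : ℝ) * Z0) * lam δ N K * C₀ := le_mul_of_one_le_right (mul_nonneg (by positivity) (lam_nonneg δ N K)) hC₀
      _ = _ := by ring

open Classical in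
/-- the indicator function of the product of the sets `I i` -/
noncomputable def indv {ν : Type} (I : ν → Set ℝ) (v : ν → ℝ) : ℝ :=
  if ∀ i, v i ∈ I i then 1 else 0

theorem indv_nonneg {ν : Type} (I : ν → Set ℝ) (v : ν → ℝ) : 0 ≤ indv I v := by
  unfold indv; split_ifs <;> norm_num

theorem indv_le {ν : Type} (I : ν → Set ℝ) (v : ν → ℝ) : indv I v ≤ 1 := by
  unfold indv; split_ifs <;> norm_num

theorem indv_congr {ν : Type} {I J : ν → Set ℝ} {v : ν → ℝ}
    (h : (∀ i, v i ∈ I i) ↔ ∀ i, v i ∈ J i) : indv I v = indv J v := by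
  unfold indv
  by_cases hI : ∀ i, v i ∈ I i
  · rw [if_pos hI, if_pos (h.mp hI)]
  · rw [if_neg hI, if_neg (fun hJ => hI (h.mpr hJ))]

/-- **boxes** -/
theorem boxes2 {S : ℕ → Finset ℕ} {v : ℕ → ι → ℤ} {ρ σ C₀ : ℝ} (hv : PEV S v ρ σ C₀) (ν : Type) [Fintype ν]
    [DecidableEq ν] (s B D : ℕ) (hs : 1 ≤ s) (δ : ℝ) (hδ : 0 < δ) :
    ∃ κ C : ℝ, 0 < κ ∧ κ ≤ 1 ∧ 1 ≤ C ∧ ∀ (q : ℕ → ℕ),
      (∀ k, 0 < q k ∧ q k ≤ D * (k + 1) ^ B) →
      (∀ j k, j + s ≤ k → Nat.Coprime (q j) (q k)) → ∀ x : ℕ → (ι → ℤ) → ν → ℝ,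
      (∀ k, PerV (x k) (q k)) →
      ∀ N : ℕ, 1 ≤ N → ∃ E : Finset ℕ, (E.card : ℝ) ≤ C * (N : ℝ) ^ (1 - κ) ∧
        ∀ n ∈ S N, n ∉ E → ∀ K : ℕ, (K : ℝ) ≤ (N : ℝ) ^ κ →
          ∀ I : ν → Set ℝ, (∀ i, (I i).OrdConnected) →
          |∑ k ∈ range K, (indv I (x k (v n)) - av (q k) (fun t => indv I (x k t)))| ≤
            C * lam δ N K := by
  classical
  obtain ⟨κ1, C1, hκ10, hκ11, hC1, H⟩ := good2 hv s B D hs δ hδ
  obtain ⟨r, hr⟩ : ∃ r, r = Fintype.card ι := ⟨_, rfl⟩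
  obtain ⟨m, hm⟩ : ∃ m, m = Fintype.card ν := ⟨_, rfl⟩
  set w : ℝ := 2 * m * (B * r + 1) with hw
  have hw0 : 0 ≤ w := by positivity
  set κ : ℝ := κ1 / (2 * (w + 1)) with hκ
  have hκ0 : 0 < κ := by positivity
  have hκ2 : κ * (2 * (w + 1)) = κ1 := by rw [hκ]; field_simp
  have hκw : κ * w ≤ κ1 / 2 := by nlinarith
  have hκh : κ ≤ κ1 / 2 := by nlinarith
  have hDr1 : (1 : ℝ) ≤ ((D : ℝ) + 1) ^ r := one_le_pow₀ (by
    have : (0 : ℝ) ≤ D := Nat.cast_nonneg D
    linarith)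
  have hD1 : (1 : ℝ) ≤ (((D : ℝ) + 1) ^ r) ^ (2 * m) := one_le_pow₀ hDr1
  refine ⟨κ, (((D : ℝ) + 1) ^ r) ^ (2 * m) * C1, hκ0, by linarith,
    one_le_mul_of_one_le_of_one_le hD1 hC1, ?_⟩
  intro q hq hcop x hx N hN
  have hNr1 : (1 : ℝ) ≤ N := by exact_mod_cast hN
  have hN0 : (0 : ℝ) < N := by linarith
  set Y := ⌊(N : ℝ) ^ κ⌋₊ with hY
  have hYr : (Y : ℝ) ≤ (N : ℝ) ^ κ := Nat.floor_le (Real.rpow_nonneg hN0.le _)
  set Θ : ν → Finset ℝ := fun i =>
    (range Y).biUnion (fun k => (bx ι (q k)).image (fun t => x k (fun l => (t l : ℤ)) i)) with hΘ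
  have hΘc : ∀ i, ((Θ i).card : ℝ) ≤ ((D : ℝ) + 1) ^ r * (N : ℝ) ^ (κ * (B * r + 1)) := by
    intro i
    have h1 : (Θ i).card ≤ ∑ k ∈ range Y, (D * Y ^ B) ^ r := by
      refine card_biUnion_le.trans (sum_le_sum fun k hk => ?_)
      refine card_image_le.trans ?_
      rw [card_bx, ← hr]
      refine Nat.pow_le_pow_left ((hq k).2.trans (Nat.mul_le_mul_left D (Nat.pow_le_pow_left ?_ B))) r
      exact mem_range.mp hk
    rw [sum_const, card_range, smul_eq_mul] at h1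
    have h2 : ((Θ i).card : ℝ) ≤ Y * (D * (Y : ℝ) ^ B) ^ r := by exact_mod_cast h1
    have h3 : (Y : ℝ) ^ (B * r + 1) ≤ (N : ℝ) ^ (κ * (B * r + 1)) := by
      calc (Y : ℝ) ^ (B * r + 1) ≤ ((N : ℝ) ^ κ) ^ (B * r + 1) := pow_le_pow_left₀ (by positivity) hYr _
        _ = _ := by
          rw [← Real.rpow_natCast, ← Real.rpow_mul hN0.le]
          push_cast
          rfl
    calc ((Θ i).card : ℝ) ≤ Y * (D * (Y : ℝ) ^ B) ^ r := h2
      _ = (D : ℝ) ^ r * (Y : ℝ) ^ (B * r + 1) := by rw [mul_pow, ← pow_mul, pow_succ]; ring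
      _ ≤ ((D : ℝ) + 1) ^ r * (N : ℝ) ^ (κ * (B * r + 1)) := by
          have : (D : ℝ) ≤ D + 1 := by linarith
          gcongr
  set J : (ν → ℝ) → (ν → ℝ) → ν → Set ℝ := fun a b i => Set.Icc (a i) (b i) with hJ
  have hEx : ∀ a b : ν → ℝ, ∃ E : Finset ℕ, (E.card : ℝ) ≤ C1 * (N : ℝ) ^ (1 - κ1) ∧
      ∀ n ∈ S N, n ∉ E → ∀ K : ℕ, (K : ℝ) ≤ (N : ℝ) ^ κ1 →
        |∑ k ∈ range K, (indv (J a b) (x k (v n)) - av (q k) (fun t => indv (J a b) (x k t)))| ≤
          C1 * lam δ N K := by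
    intro a b
    refine H q hq hcop
      (fun k n => indv (J a b) (x k n) - av (q k) (fun t => indv (J a b) (x k t))) ?_ ?_ ?_ N hN
    · intro k c d hcd
      show indv (J a b) (x k c) - _ = indv (J a b) (x k d) - _
      rw [hx k c d hcd]
    · intro k n
      have h1 := indv_nonneg (J a b) (x k n)
      have h2 := indv_le (J a b) (x k n)
      obtain ⟨h3, h4⟩ := av_mem (q := q k) (f := fun t => indv (J a b) (x k t))
        (fun t => indv_nonneg _ _) (fun t => indv_le _ _)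
      rw [abs_le]
      constructor <;> linarith
    · intro k
      exact av_sub_av (hq k).1 _
  choose Ex hEx1 hEx2 using hEx
  refine ⟨(Fintype.piFinset Θ).biUnion (fun a => (Fintype.piFinset Θ).biUnion (fun b => Ex a b)),
    ?_, ?_⟩
  · have hpi : ((Fintype.piFinset Θ).card : ℝ) ≤ (((D : ℝ) + 1) ^ r * (N : ℝ) ^ (κ * (B * r + 1))) ^ m := by
      rw [Fintype.card_piFinset]
      push_cast
      calc ∏ i, ((Θ i).card : ℝ) ≤ ∏ _i : ν, (((D : ℝ) + 1) ^ r * (N : ℝ) ^ (κ * (B * r + 1))) :=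
            prod_le_prod (fun i _ => Nat.cast_nonneg _) fun i _ => hΘc i
        _ = _ := by rw [prod_const, card_univ, hm]
    set R : ℝ := (((D : ℝ) + 1) ^ r * (N : ℝ) ^ (κ * (B * r + 1))) ^ m with hR
    have hR0 : 0 ≤ R := by positivity
    have hNp : 0 ≤ (N : ℝ) ^ (1 - κ1) := Real.rpow_nonneg hN0.le _
    have h1 : (((Fintype.piFinset Θ).biUnion
        (fun a => (Fintype.piFinset Θ).biUnion (fun b => Ex a b))).card : ℝ) ≤
        ∑ a ∈ Fintype.piFinset Θ, ∑ b ∈ Fintype.piFinset Θ, ((Ex a b).card : ℝ) := by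
      have h3 : ((Fintype.piFinset Θ).biUnion
          (fun a => (Fintype.piFinset Θ).biUnion (fun b => Ex a b))).card ≤
          ∑ a ∈ Fintype.piFinset Θ, ∑ b ∈ Fintype.piFinset Θ, (Ex a b).card :=
        card_biUnion_le.trans (sum_le_sum fun z _ => card_biUnion_le)
      exact_mod_cast h3
    have hRR : R * R = (((D : ℝ) + 1) ^ r) ^ (2 * m) * (N : ℝ) ^ (κ * w) := by
      have e1 : ((N : ℝ) ^ (κ * (B * r + 1))) ^ (2 * m) = (N : ℝ) ^ (κ * w) := by
        rw [← Real.rpow_natCast, ← Real.rpow_mul hN0.le]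
        congr 1
        rw [hw]; push_cast; ring
      rw [hR, ← pow_add, ← two_mul, mul_pow, e1]
    calc _ ≤ ∑ a ∈ Fintype.piFinset Θ, ∑ b ∈ Fintype.piFinset Θ, ((Ex a b).card : ℝ) := h1
      _ ≤ ∑ a ∈ Fintype.piFinset Θ, ∑ b ∈ Fintype.piFinset Θ, C1 * (N : ℝ) ^ (1 - κ1) :=
          sum_le_sum fun a _ => sum_le_sum fun b _ => hEx1 a b
      _ = (Fintype.piFinset Θ).card * ((Fintype.piFinset Θ).card * (C1 * (N : ℝ) ^ (1 - κ1))) := by
          rw [sum_const, sum_const, nsmul_eq_mul, nsmul_eq_mul]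
      _ ≤ R * (R * (C1 * (N : ℝ) ^ (1 - κ1))) := by gcongr
      _ = (((D : ℝ) + 1) ^ r) ^ (2 * m) * C1 * ((N : ℝ) ^ (κ * w) * (N : ℝ) ^ (1 - κ1)) := by
          rw [← mul_assoc, hRR]; ring
      _ ≤ (((D : ℝ) + 1) ^ r) ^ (2 * m) * C1 * (N : ℝ) ^ (1 - κ) := by
          rw [← Real.rpow_add hN0]
          have h4 : (N : ℝ) ^ (κ * w + (1 - κ1)) ≤ (N : ℝ) ^ (1 - κ) :=
            Real.rpow_le_rpow_of_exponent_le hNr1 (by linarith)
          gcongr
  · intro n hn hnE K hK I hI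
    have hKY : K ≤ Y := Nat.le_floor hK
    have hC : C1 ≤ (((D : ℝ) + 1) ^ r) ^ (2 * m) * C1 := by nlinarith
    have hlam := lam_nonneg δ N K
    have hres : ∀ k (c : ι → ℤ), x k c = x k (fun l => (((c l) % (q k : ℤ)).toNat : ℤ)) := fun k c =>
      ((hx k).mod (hq k).1 c).symm
    by_cases hne : ∃ i, ∀ θ ∈ Θ i, θ ∉ I i
    · obtain ⟨i, hi⟩ := hne
      have h0 : ∀ k, k < K → ∀ t, indv I (x k t) = 0 := by
        intro k hk t
        unfold indv
        rw [if_neg]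
        intro hall
        have hmem : x k (fun l => (((t l) % (q k : ℤ)).toNat : ℤ)) i ∈ Θ i := by
          rw [hΘ]
          simp only [mem_biUnion, mem_image, mem_range]
          exact ⟨k, by omega, _, mod_mem_bx (hq k).1 t, rfl⟩
        apply hi _ hmem
        rw [← hres]
        exact hall i
      have h1 : ∑ k ∈ range K, (indv I (x k (v n)) - av (q k) (fun t => indv I (x k t))) = 0 := by
        refine sum_eq_zero fun k hk => ?_
        rw [mem_range] at hk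
        rw [h0 k hk (v n), av]
        simp [h0 k hk]
      rw [h1, abs_zero]
      positivity
    · push Not at hne
      have hnon : ∀ i, ((Θ i).filter (fun θ => θ ∈ I i)).Nonempty := by
        intro i
        obtain ⟨θ, h1, h2⟩ := hne i
        exact ⟨θ, mem_filter.mpr ⟨h1, h2⟩⟩
      set a : ν → ℝ := fun i => ((Θ i).filter (fun θ => θ ∈ I i)).min' (hnon i) with ha
      set b : ν → ℝ := fun i => ((Θ i).filter (fun θ => θ ∈ I i)).max' (hnon i) with hb
      have haΘ : ∀ i, a i ∈ Θ i ∧ a i ∈ I i := fun i =>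
        mem_filter.mp (min'_mem ((Θ i).filter (fun θ => θ ∈ I i)) (hnon i))
      have hbΘ : ∀ i, b i ∈ Θ i ∧ b i ∈ I i := fun i =>
        mem_filter.mp (max'_mem ((Θ i).filter (fun θ => θ ∈ I i)) (hnon i))
      have hiff : ∀ i, ∀ θ ∈ Θ i, (θ ∈ I i ↔ θ ∈ J a b i) := by
        intro i θ hθ
        rw [hJ, Set.mem_Icc]
        constructor
        · intro h
          have hm : θ ∈ (Θ i).filter (fun θ => θ ∈ I i) := mem_filter.mpr ⟨hθ, h⟩
          exact ⟨min'_le _ _ hm, le_max' _ _ hm⟩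
        · intro h
          exact (hI i).out (haΘ i).2 (hbΘ i).2 h
      have heq : ∀ k, k < K → ∀ t, indv I (x k t) = indv (J a b) (x k t) := by
        intro k hk t
        apply indv_congr
        rw [hres k t]
        refine forall_congr' fun i => hiff i _ ?_
        rw [hΘ]
        simp only [mem_biUnion, mem_image, mem_range]
        exact ⟨k, by omega, _, mod_mem_bx (hq k).1 t, rfl⟩
      have hnab : n ∉ Ex a b := by
        intro h
        apply hnE
        rw [mem_biUnion]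
        refine ⟨a, Fintype.mem_piFinset.mpr fun i => (haΘ i).1, ?_⟩
        rw [mem_biUnion]
        exact ⟨b, Fintype.mem_piFinset.mpr fun i => (hbΘ i).1, h⟩
      have hKκ1 : (K : ℝ) ≤ (N : ℝ) ^ κ1 :=
        hK.trans (Real.rpow_le_rpow_of_exponent_le hNr1 (by linarith))
      have h1 := hEx2 a b n hn hnab K hKκ1
      have h2 : ∑ k ∈ range K, (indv I (x k (v n)) - av (q k) (fun t => indv I (x k t))) =
          ∑ k ∈ range K, (indv (J a b) (x k (v n)) - av (q k) (fun t => indv (J a b) (x k t))) := by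
        refine sum_congr rfl fun k hk => ?_
        rw [mem_range] at hk
        rw [heq k hk (v n)]
        congr 2
        funext t
        exact heq k hk t
      rw [h2]
      calc _ ≤ C1 * lam δ N K := h1
        _ ≤ _ := mul_le_mul_of_nonneg_right hC hlam

theorem indv_prod {ν : Type} (s : ℕ) (I : Fin s → ν → Set ℝ) (v : Fin s → ν → ℝ) :
    indv (fun z : Fin s × ν => I z.1 z.2) (fun z => v z.1 z.2) = ∏ i, indv (I i) (v i) := by
  classical
  unfold indv
  by_cases h : ∀ z : Fin s × ν, v z.1 z.2 ∈ I z.1 z.2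
  · rw [if_pos h, prod_eq_one]
    intro i _
    rw [if_pos (fun j => h (i, j))]
  · rw [if_neg h]
    push Not at h
    obtain ⟨⟨i, j⟩, hi⟩ := h
    rw [prod_eq_zero (mem_univ i)]
    rw [if_neg (fun h' => hi (h' j))]

theorem av_ind {ν : Type} (s k : ℕ) (x : ℕ → (ι → ℤ) → ν → ℝ) (hx : ∀ p, PerV (x p) p)
    (I : Fin s → ν → Set ℝ) :
    av (qs s k) (fun t => indv (fun z : Fin s × ν => I z.1 z.2) (fun z => x (pr (k + z.1)) t z.2)) =
      ∏ i : Fin s, av (pr (k + i)) (fun t => indv (I i) (x (pr (k + i)) t)) := by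
  classical
  have h := av_prod (fun i : Fin s => pr (k + i)) (fun i t => indv (I i) (x (pr (k + i)) t))
    univ (fun i _ => (pr_prime _).pos) (by
      intro i _ j _ hij
      apply (Nat.coprime_primes (pr_prime _) (pr_prime _)).mpr
      intro he
      apply hij
      have := pr_inj he
      ext
      omega) (by
      intro i _ c d hcd
      simp only
      rw [hx _ c d hcd])
  rw [← h.2]
  unfold qs
  congr 1
  funext t
  exact indv_prod s I (fun i => x (pr (k + i)) t)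

/-- **boxes at consecutive primes** -/
theorem consecutive2 {S : ℕ → Finset ℕ} {v : ℕ → ι → ℤ} {ρ σ C₀ : ℝ} (hv : PEV S v ρ σ C₀) (ν : Type) [Fintype ν]
    [DecidableEq ν] (s : ℕ) (hs : 1 ≤ s) (δ : ℝ) (hδ : 0 < δ) :
    ∃ κ C : ℝ, 0 < κ ∧ κ ≤ 1 ∧ 1 ≤ C ∧ ∀ x : ℕ → (ι → ℤ) → ν → ℝ, (∀ p, PerV (x p) p) →
      ∀ N : ℕ, 1 ≤ N → ∃ E : Finset ℕ, (E.card : ℝ) ≤ C * (N : ℝ) ^ (1 - κ) ∧
        ∀ n ∈ S N, n ∉ E → ∀ K : ℕ, (K : ℝ) ≤ (N : ℝ) ^ κ →
          ∀ I : Fin s → ν → Set ℝ, (∀ i j, (I i j).OrdConnected) →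
          |∑ k ∈ range K, (indv (fun z : Fin s × ν => I z.1 z.2) (fun z => x (pr (k + z.1)) (v n) z.2) -
            ∏ i : Fin s, av (pr (k + i)) (fun t => indv (I i) (x (pr (k + i)) t)))| ≤
            C * lam δ N K := by
  obtain ⟨κ, C, h1, h2, h3, H⟩ := boxes2 hv (Fin s × ν) s (2 * s) ((4 * s ^ 2) ^ s) hs δ hδ
  refine ⟨κ, C, h1, h2, h3, ?_⟩
  intro x hx N hN
  obtain ⟨E, hE1, hE2⟩ := H (qs s) (qs_le s hs) (qs_coprime s)
    (fun k n z => x (pr (k + z.1)) n z.2) (by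
      intro k c d hcd
      funext z
      exact congrFun ((hx (pr (k + z.1))) c d fun l => (Int.natCast_dvd_natCast.2
        (dvd_prod_of_mem (fun i : Fin s => pr (k + i)) (mem_univ z.1))).trans (hcd l)) z.2) N hN
  refine ⟨E, hE1, ?_⟩
  intro n hn hnE K hK I hI
  have h := hE2 n hn hnE K hK (fun z => I z.1 z.2) (fun z => hI z.1 z.2)
  have e : ∑ k ∈ range K, (indv (fun z : Fin s × ν => I z.1 z.2) (fun z => x (pr (k + z.1)) (v n) z.2) -
      ∏ i : Fin s, av (pr (k + i)) (fun t => indv (I i) (x (pr (k + i)) t))) =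
      ∑ k ∈ range K, (indv (fun z : Fin s × ν => I z.1 z.2) (fun z => x (pr (k + z.1)) (v n) z.2) -
        av (qs s k) (fun t => indv (fun z : Fin s × ν => I z.1 z.2) (fun z => x (pr (k + z.1)) t z.2))) := by
    refine sum_congr rfl fun k _ => ?_
    rw [av_ind s k x hx I]
  rw [e]
  exact h

end

end Pool.Agent.N368.TS
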