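import Pool.Agent.N368.TS.Wel

set_option autoImplicit false
set_option linter.unusedSectionVars false

/-!
Means over the values of linearly independent affine forms.
-/

namespace Pool.Agent.N368.TS

open Finset
open Pool.Agent.Y722.HS (EM red)

/-- the sum over the values of a surjective homomorphism -/
theorem fib_sum {V W : Type*} [AddCommGroup V] [AddCommGroup W] [Fintype V] [Fintype W] [DecidableEq W] (f : V →+ W)
    (hf : Function.Surjective f) (c : W) (F : W → ℝ) :
    (∑ v, F (c + f v)) * Fintype.card W = Fintype.card V * ∑ w, F w := by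
  have h0 : ∀ w : W, (univ.filter (fun v => f v = w)).card = (univ.filter (fun v => f v = 0)).card := fun w =>
    AddMonoidHom.card_fiber_eq_of_mem_range f (hf w) (hf 0)
  have h1 : ∑ v, F (c + f v) = (univ.filter (fun v => f v = 0)).card * ∑ w, F w := by
    rw [← sum_fiberwise_of_maps_to (s := univ) (t := univ) (g := f) (fun v _ => mem_univ _)]
    have h2 : ∀ w ∈ (univ : Finset W), ∑ v ∈ univ.filter (fun v => f v = w), F (c + f v) =
        (univ.filter (fun v => f v = 0)).card * F (c + w) := by
      intro w _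
      rw [← h0 w, ← nsmul_eq_mul, ← sum_const]
      refine sum_congr rfl fun v hv => ?_
      rw [(mem_filter.1 hv).2]
    rw [sum_congr rfl h2, ← mul_sum]
    congr 1
    exact Fintype.sum_equiv (Equiv.addLeft c) _ _ (fun w => rfl)
  have h2 : Fintype.card V = Fintype.card W * (univ.filter (fun v => f v = 0)).card := by
    rw [← card_univ, card_eq_sum_card_fiberwise (f := f) (t := univ) (fun v _ => mem_univ _), ← card_univ (α := W),
      ← smul_eq_mul, ← sum_const]
    exact sum_congr rfl fun w _ => h0 w
  rw [h1, h2]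
  push_cast
  ring

/-- a right inverse up to a factor -/
theorem right_inv {r m : ℕ} (M : Fin m → Fin r → ℤ) (hM : LinearIndependent ℤ M) :
    ∃ (D : ℤ) (R : Fin r → Fin m → ℤ), D ≠ 0 ∧ ∀ j k, ∑ l, M j l * R l k = if j = k then D else 0 := by
  obtain ⟨A, hA⟩ : ∃ A : Matrix (Fin m) (Fin r) ℤ, A = Matrix.of M := ⟨_, rfl⟩
  refine ⟨(A * A.transpose).det, fun l k => (A.transpose * (A * A.transpose).adjugate) l k, ?_, ?_⟩
  · intro h0
    obtain ⟨v, hv0, hv⟩ := Matrix.exists_vecMul_eq_zero_iff.2 h0
    apply hv0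
    have h1 : Matrix.vecMul v A ⬝ᵥ Matrix.vecMul v A = 0 := by
      have h2 : Matrix.vecMul (Matrix.vecMul v A) A.transpose = 0 := by
        rw [Matrix.vecMul_vecMul]
        exact hv
      have h3 : Matrix.vecMul (Matrix.vecMul v A) A.transpose ⬝ᵥ v = 0 := by
        rw [h2, zero_dotProduct]
      rw [Matrix.vecMul_transpose, dotProduct_comm, Matrix.dotProduct_mulVec] at h3
      exact h3
    have h2 : Matrix.vecMul v A = 0 := dotProduct_self_eq_zero.1 h1
    have h3 := Fintype.linearIndependent_iff.1 hM v (by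
      funext l
      have h4 := congrFun h2 l
      rw [Matrix.vecMul, dotProduct] at h4
      rw [Finset.sum_apply]
      simp only [Pi.smul_apply, smul_eq_mul, Pi.zero_apply] at h4 ⊢
      rw [hA] at h4
      exact h4)
    funext i
    exact h3 i
  · intro j k
    have h1 : A * (A.transpose * (A * A.transpose).adjugate) = (A * A.transpose).det • (1 : Matrix (Fin m) (Fin m) ℤ) := by
      rw [← Matrix.mul_assoc, Matrix.mul_adjugate]
    have h2 := congrFun (congrFun h1 j) k
    rw [Matrix.mul_apply, Matrix.smul_apply, Matrix.one_apply, smul_eq_mul, mul_ite, mul_one, mul_zero] at h2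
    rw [← h2, hA]
    rfl

/-- the mean over the values of independent affine forms -/
theorem av_lin {r m : ℕ} (c₀ : Fin m → ℤ) (M : Fin m → Fin r → ℤ) (D : ℤ) (R : Fin r → Fin m → ℤ)
    (hR : ∀ j k, ∑ l, M j l * R l k = if j = k then D else 0) (p : ℕ) (hp : p.Prime) (hD : ¬ (p : ℤ) ∣ D)
    (F : (Fin m → ℤ) → ℝ) (hF : PerV F p) :
    av p (fun t : Fin r → ℤ => F (fun j => c₀ j + ∑ l, M j l * t l)) = av p F := by
  have : Fact p.Prime := ⟨hp⟩
  have : NeZero p := ⟨hp.ne_zero⟩
  have hD0 : (D : ZMod p) ≠ 0 := by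
    rw [Ne, ZMod.intCast_zmod_eq_zero_iff_dvd]
    exact hD
  obtain ⟨f, hf⟩ : ∃ f : (Fin r → ZMod p) →+ (Fin m → ZMod p), ∀ x j, f x j = ∑ l, (M j l : ZMod p) * x l :=
    ⟨AddMonoidHom.mk' (fun x j => ∑ l, (M j l : ZMod p) * x l) (by
      intro x y
      funext j
      simp only [Pi.add_apply, mul_add, sum_add_distrib]), fun x j => rfl⟩
  have hsurj : Function.Surjective f := by
    intro y
    refine ⟨fun l => ∑ k, (R l k : ZMod p) * (y k / D), ?_⟩
    funext j
    rw [hf]
    calc ∑ l, (M j l : ZMod p) * ∑ k, (R l k : ZMod p) * (y k / D) =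
          ∑ k, (∑ l, (M j l : ZMod p) * (R l k : ZMod p)) * (y k / D) := by
          simp only [mul_sum]
          rw [sum_comm]
          refine sum_congr rfl fun k _ => ?_
          rw [Finset.sum_mul]
          refine sum_congr rfl fun l _ => ?_
          ring
      _ = ∑ k, (if j = k then (D : ZMod p) else 0) * (y k / D) := by
          refine sum_congr rfl fun k _ => ?_
          congr 1
          have h1 := congrArg (fun z : ℤ => (z : ZMod p)) (hR j k)
          simp only [Int.cast_sum, Int.cast_mul] at h1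
          rw [h1]
          split_ifs <;> simp
      _ = y j := by
          simp only [ite_mul, zero_mul, sum_ite_eq, mem_univ, if_true]
          field_simp
  have hfib := fib_sum f hsurj (fun j => (c₀ j : ZMod p)) (fun w => F (fun i => ((w i).val : ℤ)))
  have hpr : (0 : ℝ) < p := by exact_mod_cast hp.pos
  rw [av_eq_EM, av_eq_EM]
  unfold EM
  rw [Fintype.card_fin, Fintype.card_fin, div_eq_div_iff (by positivity) (by positivity)]
  rw [Fintype.card_pi, Fintype.card_pi, prod_const, prod_const, ZMod.card, card_univ, card_univ, Fintype.card_fin,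
    Fintype.card_fin] at hfib
  push_cast at hfib
  have h6 : ∀ ρ : Fin r → ZMod p, F (fun j => c₀ j + ∑ l, M j l * ((ρ l).val : ℤ)) =
      F (fun i => ((((fun j => (c₀ j : ZMod p)) + f ρ) i).val : ℤ)) := by
    intro ρ
    rw [← per_red hF (fun j => c₀ j + ∑ l, M j l * ((ρ l).val : ℤ))]
    congr 1
    funext i
    unfold red
    rw [Pi.add_apply, hf]
    push_cast
    simp only [ZMod.natCast_val, ZMod.cast_id', id_eq]
  rw [sum_congr rfl (fun ρ _ => h6 ρ)]
  rw [hfib]
  ring

end Pool.Agent.N368.TS
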