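import Pool.Agent.N368.TS.Bdd
import Pool.Agent.N368.TS.Lin

set_option autoImplicit false
set_option linter.unusedSectionVars false

/-!
Properties of pairs of residues at consecutive primes, with a parameter, for families of integer vectors which are uniformly
distributed in residue classes: joint counts for several pairs, uniformly in the parameters.
-/

namespace Pool.Agent.N368.TS

open Finset Pool.Agent.TH869.EVF Pool.Agent.TH869.SQ

theorem pr_le (k : ℕ) : pr k ≤ 4 * (k + 1) ^ 2 := Pool.Agent.TH862.EA.nth_prime_le k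

section
variable {ι : Type} [Fintype ι] [DecidableEq ι]

open Classical in
/-- **properties with parameters at consecutive primes** -/
theorem props {S : ℕ → Finset ℕ} {v : ℕ → ι → ℤ} {ρ σ C₀ : ℝ} (hv : PEV S v ρ σ C₀) (m s : ℕ) (hs : 1 ≤ s)
    (δ : ℝ) (hδ : 0 < δ) (Θ : Type) (Pr : Θ → ℕ → ℤ → ℤ → Prop)
    (hPr : ∀ (u : Θ) (p : ℕ) (A A' B B' : ℤ), (p : ℤ) ∣ A - A' → (p : ℤ) ∣ B - B' → (Pr u p A B ↔ Pr u p A' B'))
    (Rg : ℕ → Finset Θ) (b : ℕ) (hb : ∀ X : ℕ, 1 ≤ X → (Rg X).card ≤ b * X ^ b)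
    (hRg : ∀ (u : Θ) (X p : ℕ) (A B : ℤ), p.Prime → p ≤ X → Pr u p A B → u ∈ Rg X) :
    ∃ κ C : ℝ, 0 < κ ∧ κ ≤ 1 ∧ 1 ≤ C ∧ ∀ A B : Fin m → (ι → ℤ) → ℤ,
      (∀ (p : ℕ) (j : Fin m) (c d : ι → ℤ), (∀ l, (p : ℤ) ∣ c l - d l) → (p : ℤ) ∣ A j c - A j d) →
      (∀ (p : ℕ) (j : Fin m) (c d : ι → ℤ), (∀ l, (p : ℤ) ∣ c l - d l) → (p : ℤ) ∣ B j c - B j d) →
      ∀ N : ℕ, 1 ≤ N → ∀ W : Finset (Set ℕ), (W.card : ℝ) ≤ (N : ℝ) ^ κ →
      ∃ E : Finset ℕ, (E.card : ℝ) ≤ C * (N : ℝ) ^ (1 - κ) ∧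
        ∀ n ∈ S N, n ∉ E → ∀ D ∈ W, ∀ K : ℕ, (K : ℝ) ≤ (N : ℝ) ^ κ → ∀ u : Fin s → Fin m → Θ,
          |((((range K).filter (fun k => k ∈ D ∧ ∀ (i : Fin s) (j : Fin m),
              Pr (u i j) (pr (k + i)) (A j (v n)) (B j (v n)))).card : ℕ) : ℝ) -
            ∑ k ∈ (range K).filter (fun k => k ∈ D), ∏ i : Fin s, av (pr (k + i)) (fun t : ι → ℤ =>
              if ∀ j, Pr (u i j) (pr (k + i)) (A j t) (B j t) then 1 else 0)| ≤ C * lam δ N K := by
  obtain ⟨κ₁, C₁, h1, h2, h3, H⟩ := bounded2 hv s hs δ hδ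
  set e : ℕ := 2 * b * m * s with he
  have hbe : (0 : ℝ) ≤ e := Nat.cast_nonneg _
  set κ : ℝ := κ₁ / (2 * (e + 1)) with hκ
  have hκ0 : 0 < κ := by positivity
  have hκ1 : κ * (2 * (e + 1)) = κ₁ := by
    rw [hκ]
    field_simp
  have hκle : κ ≤ κ₁ / 2 := by nlinarith
  set c₁ : ℝ := ((b : ℝ) * (16 * (s : ℝ) ^ 2) ^ b) ^ (m * s) with hc₁
  have hc₁0 : 0 ≤ c₁ := by positivity
  refine ⟨κ, C₁ * (c₁ + 1) + 2 * C₁, hκ0, by linarith, by nlinarith, ?_⟩
  intro A B hA hB N hN W hW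
  have hNr1 : (1 : ℝ) ≤ N := by exact_mod_cast hN
  have hN0 : (0 : ℝ) < N := by linarith
  have hNκ : 1 ≤ (N : ℝ) ^ κ := Real.one_le_rpow hNr1 hκ0.le
  set K₀ : ℕ := ⌊(N : ℝ) ^ κ⌋₊ with hK₀
  have hK₀le : (K₀ : ℝ) ≤ (N : ℝ) ^ κ := Nat.floor_le (by linarith)
  set X : ℕ := 4 * s ^ 2 * (K₀ + 1) ^ 2 with hX
  have hX1 : 1 ≤ X := by
    rw [hX]
    have : 0 < 4 * s ^ 2 * (K₀ + 1) ^ 2 := by positivity
    omega
  have hXle : (X : ℝ) ≤ 16 * (s : ℝ) ^ 2 * ((N : ℝ) ^ κ) ^ 2 := by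
    rw [hX]
    push_cast
    have h4 : (K₀ : ℝ) + 1 ≤ 2 * (N : ℝ) ^ κ := by linarith
    calc 4 * (s : ℝ) ^ 2 * ((K₀ : ℝ) + 1) ^ 2 ≤ 4 * (s : ℝ) ^ 2 * (2 * (N : ℝ) ^ κ) ^ 2 := by gcongr
      _ = _ := by ring
  -- the functions
  set Q : Finset (Fin m → Θ) := Fintype.piFinset (fun _ => Rg X) with hQ
  have hQc : (Q.card : ℝ) ≤ ((b : ℝ) * (16 * (s : ℝ) ^ 2) ^ b) ^ m * ((N : ℝ) ^ κ) ^ (2 * b * m) := by
    rw [hQ, Fintype.card_piFinset, prod_const, card_univ, Fintype.card_fin]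
    push_cast
    have h4 : ((Rg X).card : ℝ) ≤ b * (X : ℝ) ^ b := by exact_mod_cast hb X hX1
    have h5 : ((Rg X).card : ℝ) ≤ (b : ℝ) * (16 * (s : ℝ) ^ 2) ^ b * ((N : ℝ) ^ κ) ^ (2 * b) := by
      refine h4.trans ?_
      calc (b : ℝ) * (X : ℝ) ^ b ≤ (b : ℝ) * (16 * (s : ℝ) ^ 2 * ((N : ℝ) ^ κ) ^ 2) ^ b := by gcongr
        _ = _ := by rw [mul_pow, ← pow_mul]; ring
    calc ((Rg X).card : ℝ) ^ m ≤ ((b : ℝ) * (16 * (s : ℝ) ^ 2) ^ b * ((N : ℝ) ^ κ) ^ (2 * b)) ^ m := by gcongr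
      _ = _ := by rw [mul_pow, ← pow_mul]
  have hQs : (Q.card : ℝ) ^ s ≤ c₁ * (N : ℝ) ^ (κ₁ / 2) := by
    calc (Q.card : ℝ) ^ s ≤ (((b : ℝ) * (16 * (s : ℝ) ^ 2) ^ b) ^ m * ((N : ℝ) ^ κ) ^ (2 * b * m)) ^ s := by gcongr
      _ = c₁ * ((N : ℝ) ^ κ) ^ e := by
          rw [mul_pow, ← pow_mul, ← pow_mul]
      _ ≤ c₁ * (N : ℝ) ^ (κ₁ / 2) := by
          refine mul_le_mul_of_nonneg_left ?_ hc₁0
          rw [← Real.rpow_natCast, ← Real.rpow_mul hN0.le]
          apply Real.rpow_le_rpow_of_exponent_le hNr1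
          nlinarith
  set G : (Fin m → Θ) → ℕ → (ι → ℤ) → ℝ := fun θ p t => if ∀ j, Pr (θ j) p (A j t) (B j t) then 1 else 0 with hG
  obtain ⟨E, hE1, hE2⟩ := H (Fin m → Θ) Q 1 le_rfl G (by
    intro θ _ p _ c d hcd
    simp only [hG]
    congr 1
    exact propext (forall_congr' fun j => hPr _ _ _ _ _ _ (hA p j c d hcd) (hB p j c d hcd))) (by
    intro θ _ p _ t
    simp only [hG]
    split_ifs <;> simp) N hN (W.image (fun D k => if k ∈ D then (1 : ℝ) else 0)) (by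
    refine le_trans (Nat.cast_le.2 card_image_le) (hW.trans ?_)
    exact Real.rpow_le_rpow_of_exponent_le hNr1 (by linarith)) (by
    intro w hw k
    rw [mem_image] at hw
    obtain ⟨D, _, rfl⟩ := hw
    simp only
    split_ifs <;> simp)
  refine ⟨E, ?_, ?_⟩
  · refine hE1.trans ?_
    calc C₁ * (Q.card : ℝ) ^ s * (N : ℝ) ^ (1 - κ₁) ≤ C₁ * (c₁ * (N : ℝ) ^ (κ₁ / 2)) * (N : ℝ) ^ (1 - κ₁) := by gcongr
      _ = C₁ * c₁ * ((N : ℝ) ^ (κ₁ / 2) * (N : ℝ) ^ (1 - κ₁)) := by ring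
      _ = C₁ * c₁ * (N : ℝ) ^ (1 - κ₁ / 2) := by
          rw [← Real.rpow_add hN0]
          congr 2
          ring
      _ ≤ C₁ * c₁ * (N : ℝ) ^ (1 - κ) := by
          refine mul_le_mul_of_nonneg_left ?_ (by positivity)
          exact Real.rpow_le_rpow_of_exponent_le hNr1 (by linarith)
      _ ≤ (C₁ * (c₁ + 1) + 2 * C₁) * (N : ℝ) ^ (1 - κ) := by
          refine mul_le_mul_of_nonneg_right ?_ (Real.rpow_nonneg hN0.le _)
          nlinarith
  · intro n hn hnE D hD K hK u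
    have hlam : 0 ≤ lam δ N K := by
      unfold lam
      positivity
    have hKK : K ≤ K₀ := Nat.le_floor hK
    have hprX : ∀ k ∈ range K, ∀ i : Fin s, pr (k + i) ≤ X := by
      intro k hk i
      rw [mem_range] at hk
      refine (pr_le _).trans ?_
      have h6 : k + (i : ℕ) + 1 ≤ s * (K₀ + 1) := by
        have := i.isLt
        nlinarith
      calc 4 * (k + (i : ℕ) + 1) ^ 2 ≤ 4 * (s * (K₀ + 1)) ^ 2 :=
            Nat.mul_le_mul_left 4 (Nat.pow_le_pow_left h6 2)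
        _ = X := by rw [hX]; ring
    have e1 : ((((range K).filter (fun k => k ∈ D ∧ ∀ (i : Fin s) (j : Fin m),
        Pr (u i j) (pr (k + i)) (A j (v n)) (B j (v n)))).card : ℕ) : ℝ) =
        ∑ k ∈ range K, (if k ∈ D then (1 : ℝ) else 0) * ∏ i : Fin s, G (u i) (pr (k + i)) (v n) := by
      rw [card_filter, Nat.cast_sum]
      refine sum_congr rfl fun k _ => ?_
      by_cases hkD : k ∈ D
      · rw [if_pos hkD, one_mul]
        by_cases hall : ∀ (i : Fin s) (j : Fin m), Pr (u i j) (pr (k + i)) (A j (v n)) (B j (v n))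
        · rw [if_pos ⟨hkD, hall⟩, Nat.cast_one]
          symm
          refine prod_eq_one fun i _ => ?_
          simp only [hG]
          rw [if_pos (hall i)]
        · rw [if_neg (fun h => hall h.2), Nat.cast_zero]
          push Not at hall
          obtain ⟨i, j, hij⟩ := hall
          symm
          refine prod_eq_zero (mem_univ i) ?_
          simp only [hG]
          rw [if_neg (fun h => hij (h j))]
      · rw [if_neg hkD, zero_mul, if_neg (fun h => hkD h.1), Nat.cast_zero]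
    have e2 : ∑ k ∈ (range K).filter (fun k => k ∈ D), ∏ i : Fin s, av (pr (k + i)) (fun t : ι → ℤ =>
              if ∀ j, Pr (u i j) (pr (k + i)) (A j t) (B j t) then 1 else 0) =
        ∑ k ∈ range K, (if k ∈ D then (1 : ℝ) else 0) * ∏ i : Fin s, av (pr (k + i)) (G (u i) (pr (k + i))) := by
      rw [sum_filter]
      refine sum_congr rfl fun k _ => ?_
      by_cases hkD : k ∈ D
      · rw [if_pos hkD, if_pos hkD, one_mul]
      · rw [if_neg hkD, if_neg hkD, zero_mul]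
    rw [e1, e2, ← sum_sub_distrib]
    by_cases hu : ∀ i : Fin s, u i ∈ Q
    · have h7 := hE2 n hn hnE _ (mem_image_of_mem _ hD) K
        (hK.trans (Real.rpow_le_rpow_of_exponent_le hNr1 (by linarith))) u hu
      have e3 : ∀ k ∈ range K, (if k ∈ D then (1 : ℝ) else 0) * ∏ i : Fin s, G (u i) (pr (k + i)) (v n) -
          (if k ∈ D then (1 : ℝ) else 0) * ∏ i : Fin s, av (pr (k + i)) (G (u i) (pr (k + i))) =
          (if k ∈ D then (1 : ℝ) else 0) * (∏ e : Fin s, G (u e) (pr (k + e)) (v n) -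
            ∏ e : Fin s, av (pr (k + e)) (G (u e) (pr (k + e)))) := fun k _ => by ring
      rw [sum_congr rfl e3]
      refine h7.trans ?_
      rw [one_pow, mul_one]
      refine mul_le_mul_of_nonneg_right ?_ hlam
      nlinarith
    · push Not at hu
      obtain ⟨i, hi⟩ := hu
      rw [hQ, Fintype.mem_piFinset] at hi
      push Not at hi
      obtain ⟨j, hj⟩ := hi
      have e4 : ∀ k ∈ range K, ∀ t : ι → ℤ, G (u i) (pr (k + i)) t = 0 := by
        intro k hk t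
        simp only [hG]
        rw [if_neg]
        intro hall
        exact hj (hRg _ X _ _ _ (pr_prime _) (hprX k hk i) (hall j))
      have e5 : ∀ k ∈ range K, (if k ∈ D then (1 : ℝ) else 0) * ∏ i : Fin s, G (u i) (pr (k + i)) (v n) -
          (if k ∈ D then (1 : ℝ) else 0) * ∏ i : Fin s, av (pr (k + i)) (G (u i) (pr (k + i))) = 0 := by
        intro k hk
        rw [prod_eq_zero (mem_univ i) (e4 k hk _), prod_eq_zero (mem_univ i) (by
          have : G (u i) (pr (k + i)) = fun _ => 0 := funext (e4 k hk)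
          rw [this]
          unfold av
          simp)]
        ring
      rw [sum_eq_zero e5, abs_zero]
      have : 0 ≤ C₁ * (c₁ + 1) + 2 * C₁ := by nlinarith
      positivity

end

open Classical in
/-- the mean of a product of properties of pairs -/
theorem av_pairs {m : ℕ} (p : ℕ) (Pr : Fin m → ℤ → ℤ → Prop) :
    av p (fun t : Fin (m + m) → ℤ => if ∀ j, Pr j (t (Fin.castAdd m j)) (t (Fin.natAdd m j)) then 1 else 0) =
      ∏ j, (((range p ×ˢ range p).filter (fun z : ℕ × ℕ => Pr j z.1 z.2)).card : ℝ) / (p : ℝ) ^ 2 := by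
  unfold av
  rw [prod_div_distrib, prod_const, card_univ, Fintype.card_fin, Fintype.card_fin, ← pow_mul]
  have e0 : 2 * m = m + m := by ring
  rw [e0]
  congr 1
  have e1 : ∀ j : Fin m, (((range p ×ˢ range p).filter (fun z : ℕ × ℕ => Pr j z.1 z.2)).card : ℝ) =
      ∑ z ∈ range p ×ˢ range p, if Pr j z.1 z.2 then (1 : ℝ) else 0 := by
    intro j
    rw [card_filter, Nat.cast_sum]
    refine sum_congr rfl fun z _ => ?_
    push_cast
    rfl
  rw [prod_congr rfl fun j _ => e1 j, prod_univ_sum]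
  refine sum_nbij' (fun t j => (t (Fin.castAdd m j), t (Fin.natAdd m j)))
    (fun z => Fin.append (fun j => (z j).1) (fun j => (z j).2)) ?_ ?_ ?_ ?_ ?_
  · intro t ht
    rw [mem_bx] at ht
    rw [Fintype.mem_piFinset]
    intro j
    rw [mem_product, mem_range, mem_range]
    exact ⟨ht _, ht _⟩
  · intro z hz
    rw [Fintype.mem_piFinset] at hz
    rw [mem_bx]
    intro i
    refine Fin.addCases (fun j => ?_) (fun j => ?_) i
    · rw [Fin.append_left]
      have := hz j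
      rw [mem_product, mem_range] at this
      exact this.1
    · rw [Fin.append_right]
      have := hz j
      rw [mem_product, mem_range, mem_range] at this
      exact this.2
  · intro t _
    funext i
    refine Fin.addCases (fun j => ?_) (fun j => ?_) i
    · rw [Fin.append_left]
    · rw [Fin.append_right]
  · intro z _
    funext j
    simp only [Fin.append_left, Fin.append_right]
  · intro t _
    simp only
    by_cases hall : ∀ j, Pr j (t (Fin.castAdd m j)) (t (Fin.natAdd m j))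
    · rw [if_pos hall]
      symm
      exact prod_eq_one fun j _ => if_pos (hall j)
    · rw [if_neg hall]
      push Not at hall
      obtain ⟨j, hj⟩ := hall
      symm
      exact prod_eq_zero (mem_univ j) (if_neg hj)

theorem one_le_lam {δ : ℝ} (hδ : 0 < δ) {N K : ℕ} (hN : 1 ≤ N) (hK : 1 ≤ K) : 1 ≤ lam δ N K := by
  have h1 : (1 : ℝ) ≤ (K : ℝ) ^ (1 / 2 + δ) := Real.one_le_rpow (by exact_mod_cast hK) (by linarith)
  have h2 : (1 : ℝ) ≤ √(1 + Real.log N) := by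
    rw [Real.one_le_sqrt]
    have : 0 ≤ Real.log N := Real.log_nonneg (by exact_mod_cast hN)
    linarith
  unfold lam
  nlinarith

open Classical in
/-- the proportion of the pairs of residues with a property -/
noncomputable def pairs (P : ℤ → ℤ → Prop) (p : ℕ) : ℝ :=
  (((range p ×ˢ range p).filter (fun z : ℕ × ℕ => P z.1 z.2)).card : ℝ) / (p : ℝ) ^ 2

theorem pairs_mem (P : ℤ → ℤ → Prop) (p : ℕ) : 0 ≤ pairs P p ∧ pairs P p ≤ 1 := by
  classical
  unfold pairs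
  refine ⟨by positivity, ?_⟩
  have h1 : ((range p ×ˢ range p).filter (fun z : ℕ × ℕ => P z.1 z.2)).card ≤ p ^ 2 := by
    refine (card_filter_le _ _).trans ?_
    rw [card_product, card_range, pow_two]
  exact div_le_one_of_le₀ (by exact_mod_cast h1) (by positivity)

open Classical in
/-- **properties with parameters at consecutive primes, independent affine forms** -/
theorem props_lin {r : ℕ} {S : ℕ → Finset ℕ} {v : ℕ → Fin r → ℤ} {ρ σ C₀ : ℝ} (hv : PEV S v ρ σ C₀) (m s : ℕ) (hs : 1 ≤ s)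
    (δ : ℝ) (hδ : 0 < δ) (Θ : Type) (Pr : Θ → ℕ → ℤ → ℤ → Prop)
    (hPr : ∀ (u : Θ) (p : ℕ) (A A' B B' : ℤ), (p : ℤ) ∣ A - A' → (p : ℤ) ∣ B - B' → (Pr u p A B ↔ Pr u p A' B'))
    (Rg : ℕ → Finset Θ) (b : ℕ) (hb : ∀ X : ℕ, 1 ≤ X → (Rg X).card ≤ b * X ^ b)
    (hRg : ∀ (u : Θ) (X p : ℕ) (A B : ℤ), p.Prime → p ≤ X → Pr u p A B → u ∈ Rg X) :
    ∃ κ C : ℝ, 0 < κ ∧ κ ≤ 1 ∧ 1 ≤ C ∧ ∀ M : Fin (m + m) → Fin r → ℤ, LinearIndependent ℤ M →
      ∃ C' : ℝ, 1 ≤ C' ∧ ∀ (c₀ : Fin (m + m) → ℤ) (N : ℕ), 1 ≤ N → ∀ W : Finset (Set ℕ), (W.card : ℝ) ≤ (N : ℝ) ^ κ →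
      ∃ E : Finset ℕ, (E.card : ℝ) ≤ C * (N : ℝ) ^ (1 - κ) ∧
        ∀ n ∈ S N, n ∉ E → ∀ D ∈ W, ∀ K : ℕ, (K : ℝ) ≤ (N : ℝ) ^ κ → ∀ u : Fin s → Fin m → Θ,
          |((((range K).filter (fun k => k ∈ D ∧ ∀ (i : Fin s) (j : Fin m),
              Pr (u i j) (pr (k + i)) (c₀ (Fin.castAdd m j) + ∑ l, M (Fin.castAdd m j) l * v n l)
                (c₀ (Fin.natAdd m j) + ∑ l, M (Fin.natAdd m j) l * v n l))).card : ℕ) : ℝ) -
            ∑ k ∈ (range K).filter (fun k => k ∈ D), ∏ i : Fin s, ∏ j : Fin m,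
              pairs (Pr (u i j) (pr (k + i))) (pr (k + i))| ≤ C' * lam δ N K := by
  obtain ⟨κ, C, h1, h2, h3, H⟩ := props hv m s hs δ hδ Θ Pr hPr Rg b hb hRg
  refine ⟨κ, C, h1, h2, h3, ?_⟩
  intro M hM
  obtain ⟨D₀, R, hD₀, hR⟩ := right_inv M hM
  refine ⟨C + (D₀.natAbs + 1), by linarith [(Nat.cast_nonneg D₀.natAbs : (0 : ℝ) ≤ D₀.natAbs)], ?_⟩
  intro c₀ N hN W hW
  have hper : ∀ (x : Fin (m + m)) (p : ℕ) (c d : Fin r → ℤ), (∀ l, (p : ℤ) ∣ c l - d l) →
      (p : ℤ) ∣ (c₀ x + ∑ l, M x l * c l) - (c₀ x + ∑ l, M x l * d l) := by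
    intro x p c d hcd
    have e1 : (c₀ x + ∑ l, M x l * c l) - (c₀ x + ∑ l, M x l * d l) = ∑ l, M x l * (c l - d l) := by
      rw [add_sub_add_left_eq_sub, ← sum_sub_distrib]
      exact sum_congr rfl fun l _ => by ring
    rw [e1]
    exact dvd_sum fun l _ => (hcd l).mul_left _
  obtain ⟨E, hE1, hE2⟩ := H (fun j c => c₀ (Fin.castAdd m j) + ∑ l, M (Fin.castAdd m j) l * c l)
    (fun j c => c₀ (Fin.natAdd m j) + ∑ l, M (Fin.natAdd m j) l * c l)
    (fun p j c d hcd => hper _ p c d hcd) (fun p j c d hcd => hper _ p c d hcd) N hN W hW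
  refine ⟨E, hE1, fun n hn hnE D hD K hK u => ?_⟩
  have h4 := hE2 n hn hnE D hD K hK u
  rcases Nat.eq_zero_or_pos K with hK0 | hK0
  · subst hK0
    simp only [range_zero, filter_empty, card_empty, Nat.cast_zero, sum_empty, sub_zero, abs_zero]
    have h5 : 0 ≤ lam δ N 0 := by
      unfold lam
      positivity
    have h6 : (0 : ℝ) ≤ C + (D₀.natAbs + 1) := by linarith [(Nat.cast_nonneg D₀.natAbs : (0 : ℝ) ≤ D₀.natAbs)]
    positivity
  have hlam := one_le_lam hδ hN hK0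
  -- the means
  have hfac : ∀ (i : Fin s) (p : ℕ), p.Prime → ¬ (p : ℤ) ∣ D₀ →
      av p (fun t : Fin r → ℤ => if ∀ j, Pr (u i j) p (c₀ (Fin.castAdd m j) + ∑ l, M (Fin.castAdd m j) l * t l)
        (c₀ (Fin.natAdd m j) + ∑ l, M (Fin.natAdd m j) l * t l) then (1 : ℝ) else 0) =
      ∏ j : Fin m, pairs (Pr (u i j) p) p := by
    intro i p hp hpD
    have h5 := av_lin c₀ M D₀ R hR p hp hpD
      (fun t : Fin (m + m) → ℤ => if ∀ j, Pr (u i j) p (t (Fin.castAdd m j)) (t (Fin.natAdd m j)) then (1 : ℝ) else 0) (by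
        intro c d hcd
        simp only
        congr 1
        exact propext (forall_congr' fun j => hPr _ _ _ _ _ _ (hcd _) (hcd _)))
    rw [av_pairs] at h5
    exact h5
  have hmem : ∀ (i : Fin s) (p : ℕ), 0 ≤ av p (fun t : Fin r → ℤ =>
      if ∀ j, Pr (u i j) p (c₀ (Fin.castAdd m j) + ∑ l, M (Fin.castAdd m j) l * t l)
        (c₀ (Fin.natAdd m j) + ∑ l, M (Fin.natAdd m j) l * t l) then (1 : ℝ) else 0) ∧
      av p (fun t : Fin r → ℤ =>
      if ∀ j, Pr (u i j) p (c₀ (Fin.castAdd m j) + ∑ l, M (Fin.castAdd m j) l * t l)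
        (c₀ (Fin.natAdd m j) + ∑ l, M (Fin.natAdd m j) l * t l) then (1 : ℝ) else 0) ≤ 1 := fun i p =>
    av_mem (fun t => by split_ifs <;> norm_num) (fun t => by split_ifs <;> norm_num)
  have hdiff : |∑ k ∈ (range K).filter (fun k => k ∈ D), ∏ i : Fin s, av (pr (k + i)) (fun t : Fin r → ℤ =>
      if ∀ j, Pr (u i j) (pr (k + i)) (c₀ (Fin.castAdd m j) + ∑ l, M (Fin.castAdd m j) l * t l)
        (c₀ (Fin.natAdd m j) + ∑ l, M (Fin.natAdd m j) l * t l) then (1 : ℝ) else 0) -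
      ∑ k ∈ (range K).filter (fun k => k ∈ D), ∏ i : Fin s, ∏ j : Fin m,
              pairs (Pr (u i j) (pr (k + i))) (pr (k + i))| ≤ D₀.natAbs + 1 := by
    rw [← sum_sub_distrib]
    refine (abs_sum_le_sum_abs _ _).trans ?_
    calc ∑ k ∈ (range K).filter (fun k => k ∈ D), |∏ i : Fin s, av (pr (k + i)) (fun t : Fin r → ℤ =>
          if ∀ j, Pr (u i j) (pr (k + i)) (c₀ (Fin.castAdd m j) + ∑ l, M (Fin.castAdd m j) l * t l)
          (c₀ (Fin.natAdd m j) + ∑ l, M (Fin.natAdd m j) l * t l) then (1 : ℝ) else 0) -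
          ∏ i : Fin s, ∏ j : Fin m, pairs (Pr (u i j) (pr (k + i))) (pr (k + i))|
        ≤ ∑ k ∈ (range K).filter (fun k => k ∈ D), (if k ∈ range (D₀.natAbs + 1) then (1 : ℝ) else 0) := by
          refine sum_le_sum fun k _ => ?_
          by_cases hk : k ∈ range (D₀.natAbs + 1)
          · rw [if_pos hk]
            have g1 : 0 ≤ ∏ i : Fin s, av (pr (k + i)) (fun t : Fin r → ℤ =>
                if ∀ j, Pr (u i j) (pr (k + i)) (c₀ (Fin.castAdd m j) + ∑ l, M (Fin.castAdd m j) l * t l)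
                (c₀ (Fin.natAdd m j) + ∑ l, M (Fin.natAdd m j) l * t l) then (1 : ℝ) else 0) :=
              prod_nonneg fun i _ => (hmem i _).1
            have g2 : ∏ i : Fin s, av (pr (k + i)) (fun t : Fin r → ℤ =>
                if ∀ j, Pr (u i j) (pr (k + i)) (c₀ (Fin.castAdd m j) + ∑ l, M (Fin.castAdd m j) l * t l)
                (c₀ (Fin.natAdd m j) + ∑ l, M (Fin.natAdd m j) l * t l) then (1 : ℝ) else 0) ≤ 1 :=
              prod_le_one (fun i _ => (hmem i _).1) fun i _ => (hmem i _).2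
            have g3 : 0 ≤ ∏ i : Fin s, ∏ j : Fin m, pairs (Pr (u i j) (pr (k + i))) (pr (k + i)) :=
              prod_nonneg fun i _ => prod_nonneg fun j _ => (pairs_mem _ _).1
            have g4 : ∏ i : Fin s, ∏ j : Fin m, pairs (Pr (u i j) (pr (k + i))) (pr (k + i)) ≤ 1 :=
              prod_le_one (fun i _ => prod_nonneg fun j _ => (pairs_mem _ _).1) fun i _ =>
                prod_le_one (fun j _ => (pairs_mem _ _).1) fun j _ => (pairs_mem _ _).2
            rw [abs_le]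
            constructor <;> linarith
          · rw [if_neg hk]
            apply le_of_eq
            rw [abs_eq_zero, sub_eq_zero]
            refine prod_congr rfl fun i _ => ?_
            refine hfac i _ (pr_prime _) fun hdvd => hk ?_
            rw [mem_range]
            have g1 : pr (k + i) ∣ D₀.natAbs := Int.natCast_dvd.1 hdvd
            have g2 : pr (k + i) ≤ D₀.natAbs := Nat.le_of_dvd (Int.natAbs_pos.2 hD₀) g1
            have g3 : k + i < pr (k + i) := by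
              unfold pr
              have := Nat.add_two_le_nth_prime (k + i)
              omega
            omega
      _ ≤ ∑ k ∈ range (D₀.natAbs + 1), (1 : ℝ) := by
          rw [← sum_filter]
          refine sum_le_sum_of_subset_of_nonneg ?_ fun _ _ _ => zero_le_one
          intro k hk
          rw [mem_filter] at hk
          exact hk.2
      _ = D₀.natAbs + 1 := by
          rw [sum_const, card_range, nsmul_eq_mul, mul_one]
          push_cast
          rfl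
  have h5 := abs_sub_le ((((range K).filter (fun k => k ∈ D ∧ ∀ (i : Fin s) (j : Fin m),
              Pr (u i j) (pr (k + i)) (c₀ (Fin.castAdd m j) + ∑ l, M (Fin.castAdd m j) l * v n l)
                (c₀ (Fin.natAdd m j) + ∑ l, M (Fin.natAdd m j) l * v n l))).card : ℕ) : ℝ)
    (∑ k ∈ (range K).filter (fun k => k ∈ D), ∏ i : Fin s, av (pr (k + i)) (fun t : Fin r → ℤ =>
      if ∀ j, Pr (u i j) (pr (k + i)) (c₀ (Fin.castAdd m j) + ∑ l, M (Fin.castAdd m j) l * t l)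
        (c₀ (Fin.natAdd m j) + ∑ l, M (Fin.natAdd m j) l * t l) then (1 : ℝ) else 0))
    (∑ k ∈ (range K).filter (fun k => k ∈ D), ∏ i : Fin s, ∏ j : Fin m,
              pairs (Pr (u i j) (pr (k + i))) (pr (k + i)))
  have h6 : ((D₀.natAbs : ℝ) + 1) ≤ (D₀.natAbs + 1) * lam δ N K :=
    le_mul_of_one_le_right (by positivity) hlam
  calc _ ≤ C * lam δ N K + (D₀.natAbs + 1) := h5.trans (add_le_add h4 hdiff)
    _ ≤ C * lam δ N K + (D₀.natAbs + 1) * lam δ N K := by linarith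
    _ = _ := by ring

end Pool.Agent.N368.TS
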