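import Pool.Agent.N368.TS.Blk
import Pool.Agent.N666.TM.Thin

set_option autoImplicit false
set_option linter.unusedSectionVars false

/-!
The vectors of the integer parts of generalised polynomials have a power-saving uniform distribution in residue classes.
-/

namespace Pool.Agent.N368.TS

open Finset Filter Pool.Agent.N666.TM Pool.Agent.Y722.HS
open Pool.Agent.N666.VE (primes)

section
variable {ι : Type} [Fintype ι] [DecidableEq ι]

theorem indv_eq {ν : Type} (I : ν → Set ℝ) (v : ν → ℝ) (P : Prop) {inst : Decidable P} (h : P ↔ ∀ i, v i ∈ I i) :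
    (@ite ℝ P inst 1 0) = indv I v := by
  unfold indv
  by_cases hP : P
  · rw [if_pos hP, if_pos (h.1 hP)]
  · rw [if_neg hP, if_neg (fun h' => hP (h.2 h'))]

theorem av_eq_EM {q : ℕ} [NeZero q] {F : (ι → ℤ) → ℝ} :
    av q F = EM q (fun ρ : ι → ZMod q => F (fun i => ((ρ i).val : ℤ))) := by
  unfold av EM
  congr 1
  refine sum_nbij' (fun t i => ((t i : ℕ) : ZMod q)) (fun ρ i => (ρ i).val) ?_ ?_ ?_ ?_ ?_
  · intro t _
    exact mem_univ _
  · intro ρ _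
    rw [mem_bx]
    exact fun i => ZMod.val_lt _
  · intro t ht
    rw [mem_bx] at ht
    funext i
    exact ZMod.val_cast_of_lt (ht i)
  · intro ρ _
    funext i
    exact ZMod.natCast_zmod_val _
  · intro t ht
    rw [mem_bx] at ht
    simp only
    congr 1
    funext i
    rw [ZMod.val_cast_of_lt (ht i)]

theorem per_red {q : ℕ} [NeZero q] {F : (ι → ℤ) → ℝ} (hF : PerV F q) (c : ι → ℤ) :
    F (fun i => ((red q c i).val : ℤ)) = F c := by
  apply hF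
  intro i
  unfold red
  rw [ZMod.val_intCast]
  exact ⟨-(c i / q), by have := Int.emod_add_mul_ediv (c i) q; linarith⟩

theorem pev_of_well {S : ℕ → Finset ℕ} {x : ℕ → ι → ℤ} (hS : ∀ N, (S N).card ≤ N)
    (h : ∃ κ : ℝ, 0 < κ ∧ ∃ N₀ : ℕ, ∀ N : ℕ, N₀ ≤ N → ∀ H : ℕ, (H : ℝ) ≤ (N : ℝ) ^ κ → Well (S N) x H) :
    ∃ ρ σ C : ℝ, PEV S x ρ σ C := by
  classical
  obtain ⟨κ, hκ, N₀, H⟩ := h
  have hm0 : 0 < min κ 1 := lt_min hκ one_pos
  have hm1 : min κ 1 ≤ 1 := min_le_right _ _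
  have hmκ : min κ 1 ≤ κ := min_le_left _ _
  have hcard : ∀ N : ℕ, ((S N).card : ℝ) ≤ N := fun N => by exact_mod_cast hS N
  refine ⟨min κ 1, min κ 1, N₀ + 2, hm0, hm1, hm0, hm1, ?_, ?_, ?_⟩
  · have : (0 : ℝ) ≤ N₀ := Nat.cast_nonneg _
    linarith
  · intro N _
    have := hcard N
    linarith
  intro N hN M hM hMN F hF hF1 hav
  have hNr1 : (1 : ℝ) ≤ N := by exact_mod_cast hN
  have hN0 : (0 : ℝ) < N := by linarith
  have hM1 : (1 : ℝ) ≤ M := by exact_mod_cast hM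
  have hNp : 1 ≤ (N : ℝ) ^ (1 - min κ 1) := Real.one_le_rpow hNr1 (by linarith)
  have hN₀0 : (0 : ℝ) ≤ N₀ := Nat.cast_nonneg _
  have hNp0 : (0 : ℝ) ≤ ((N₀ : ℝ) + 2) * (N : ℝ) ^ (1 - min κ 1) := by positivity
  suffices hmain : |∑ n ∈ S N, F (x n)| ≤ ((N₀ : ℝ) + 2) * (N : ℝ) ^ (1 - min κ 1) by
    refine hmain.trans ?_
    exact le_mul_of_one_le_left hNp0 hM1
  have htriv : |∑ n ∈ S N, F (x n)| ≤ N := by
    refine (abs_sum_le_sum_abs _ _).trans ?_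
    calc ∑ n ∈ S N, |F (x n)| ≤ ∑ n ∈ S N, (1 : ℝ) := sum_le_sum fun n _ => hF1 _
      _ = (S N).card := by simp
      _ ≤ N := hcard N
  by_cases hNN : N < N₀
  · have h1 : (N : ℝ) ≤ N₀ := by exact_mod_cast hNN.le
    nlinarith
  push Not at hNN
  have hfl : (⌊(N : ℝ) ^ κ⌋₊ : ℝ) ≤ (N : ℝ) ^ κ := Nat.floor_le (by positivity)
  have hw := H N hNN ⌊(N : ℝ) ^ κ⌋₊ hfl
  have hMH : M ≤ ⌊(N : ℝ) ^ κ⌋₊ :=
    Nat.le_floor (hMN.trans (Real.rpow_le_rpow_of_exponent_le hNr1 hmκ))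
  have hne : NeZero M := ⟨by omega⟩
  have h1 := SA_near hw M (by omega) (fun ρ : ι → ZMod M => F (fun i => ((ρ i).val : ℤ)))
  rw [← av_eq_EM, hav, sub_zero] at h1
  have e1 : SA (S N) x (fun c => (fun ρ : ι → ZMod M => F (fun i => ((ρ i).val : ℤ))) (red M c)) =
      (∑ n ∈ S N, F (x n)) / (S N).card := by
    unfold SA
    congr 1
    exact sum_congr rfl fun n _ => per_red hF (x n)
  rw [e1] at h1
  have h2 : EM M (fun ρ : ι → ZMod M => |F (fun i => ((ρ i).val : ℤ))|) ≤ 1 := by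
    have h3 := av_eq_EM (q := M) (F := fun c : ι → ℤ => |F c|)
    rw [← h3]
    exact (av_mem (fun _ => abs_nonneg _) fun t => hF1 t).2
  have hc0 : (0 : ℝ) < (S N).card := by exact_mod_cast hw.pos
  obtain ⟨t, ht⟩ : ∃ t : ℝ, t = (⌊(N : ℝ) ^ κ⌋₊ : ℝ) := ⟨_, rfl⟩
  have ht1 : (N : ℝ) ^ κ < t + 1 := by rw [ht]; exact Nat.lt_floor_add_one _
  have hNκ : (0 : ℝ) < (N : ℝ) ^ κ := by positivity
  have ht0 : 0 ≤ t := by rw [ht]; positivity
  rw [← ht] at h1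
  have h4 : |(∑ n ∈ S N, F (x n)) / ((S N).card : ℝ)| ≤ 1 / (N : ℝ) ^ κ := by
    refine h1.trans ?_
    have h5 : 1 / (2 * t + 1) * EM M (fun ρ : ι → ZMod M => |F (fun i => ((ρ i).val : ℤ))|) ≤
        1 / (2 * t + 1) * 1 := mul_le_mul_of_nonneg_left h2 (by positivity)
    refine h5.trans ?_
    rw [mul_one]
    apply one_div_le_one_div_of_le hNκ
    linarith
  rw [abs_div, abs_of_pos hc0, div_le_iff₀ hc0] at h4
  calc |∑ n ∈ S N, F (x n)| ≤ 1 / (N : ℝ) ^ κ * (S N).card := h4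
    _ ≤ 1 / (N : ℝ) ^ κ * N := mul_le_mul_of_nonneg_left (hcard N) (by positivity)
    _ = (N : ℝ) ^ (1 - κ) := by rw [Real.rpow_sub hN0, Real.rpow_one]; ring
    _ ≤ (N : ℝ) ^ (1 - min κ 1) := Real.rpow_le_rpow_of_exponent_le hNr1 (by linarith)
    _ ≤ _ := by nlinarith

/-- generalised polynomials: integers and primes -/
theorem fl_pev [Nonempty ι] {F : ι → Finset ℝ} {a : ι → ℝ → ℝ} {c : ι → ℝ}
    (h : ∀ i, c i ∈ F i ∧ (∀ t ∈ F i, t ≤ c i) ∧ 0 < c i ∧ (∀ m : ℕ, c i ≠ m) ∧ 0 < a i (c i))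
    (hc : Function.Injective c) :
    (∃ ρ σ C : ℝ, PEV (fun N => Ioc N (2 * N)) (fl F a) ρ σ C) ∧
    (∃ ρ σ C : ℝ, PEV primes (fl F a) ρ σ C) := by
  obtain ⟨h1, h2⟩ := fl_well h hc
  refine ⟨pev_of_well (fun N => ?_) h1, pev_of_well (fun N => ?_) h2⟩
  · rw [Nat.card_Ioc]
    omega
  · refine (card_le_card (t := Ioc N (2 * N)) ?_).trans ?_
    · unfold primes
      exact filter_subset _ _
    · rw [Nat.card_Ioc]
      omega

end

end Pool.Agent.N368.TS
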